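import Pool.Agent.T2h44.LM.Calc

set_option autoImplicit false
set_option linter.unusedSimpArgs false

namespace Pool.Agent.T2h44.LM

/-- `b, !b, b, !b, ...` with `2 k` entries -/
def alt (b : Bool) : ℕ → List Bool
  | 0 => []
  | k + 1 => b :: (!b) :: alt b k

theorem alt_snoc (b : Bool) : ∀ k, alt b k ++ [b, !b] = alt b (k + 1) := by
  intro k
  induction k with
  | zero => rfl
  | succ k ih => simp only [alt, List.cons_append] at ih ⊢; rw [ih]

theorem alt_shift (b : Bool) : ∀ k, alt b k ++ [b] = b :: alt (!b) k := by
  intro k
  induction k with
  | zero => rfl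
  | succ k ih => simp only [alt, List.cons_append, Bool.not_not, ih]

theorem alt_shift' (b : Bool) (k : ℕ) (B : List Bool) : alt b k ++ (b :: B) = b :: (alt (!b) k ++ B) := by
  have := congrArg (· ++ B) (alt_shift b k)
  simpa using this

/-- `k` left cusps above each other -/
def LS (b : Bool) : List Bool → List Bool → ℕ → List Event
  | _, _, 0 => []
  | A, B, k + 1 => ⟨A, .lc b, B⟩ :: LS b (A ++ [b, !b]) B k

/-- `k` right cusps above each other -/
def RS (b : Bool) (A B : List Bool) : ℕ → List Event
  | 0 => []
  | k + 1 => ⟨A, .rc b, alt b k ++ B⟩ :: RS b A B k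

theorem LS_snoc (b : Bool) (B : List Bool) : ∀ (k : ℕ) (A : List Bool),
    LS b A B (k + 1) = LS b A B k ++ [⟨A ++ alt b k, .lc b, B⟩] := by
  intro k
  induction k with
  | zero => intro A; simp [LS, alt]
  | succ k ih =>
    intro A
    rw [LS, ih]
    simp only [LS, List.cons_append, List.append_assoc, alt, List.nil_append]

theorem RS_snoc (b : Bool) (A B : List Bool) : ∀ k : ℕ,
    RS b A B (k + 1) = RS b A ([b, !b] ++ B) k ++ [⟨A, .rc b, B⟩] := by
  intro k
  induction k with
  | zero => simp [RS, alt]
  | succ k ih =>
    rw [RS, ih]
    simp only [RS, List.cons_append]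
    congr 2
    rw [← alt_snoc]
    simp

theorem LS_addHi (b : Bool) (B C : List Bool) : ∀ (k : ℕ) (A : List Bool),
    (LS b A B k).map (Event.addHi C) = LS b A (B ++ C) k := by
  intro k
  induction k with
  | zero => intro A; rfl
  | succ k ih => intro A; simp [LS, ih, Event.addHi]

theorem RS_addHi (b : Bool) (A B C : List Bool) : ∀ (k : ℕ),
    (RS b A B k).map (Event.addHi C) = RS b A (B ++ C) k := by
  intro k
  induction k with
  | zero => rfl
  | succ k ih => simp [RS, ih, Event.addHi]

theorem LS_valid (b : Bool) (B : List Bool) : ∀ (k : ℕ) (A : List Bool),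
    Valid (A ++ B) (LS b A B k) (A ++ alt b k ++ B) := by
  intro k
  induction k with
  | zero => intro A; simp [LS, alt, Valid]
  | succ k ih =>
    intro A
    refine ⟨by simp [Kind.src], ?_⟩
    have := ih (A ++ [b, !b])
    simpa [Kind.tgt, alt] using this

theorem RS_valid (b : Bool) (A B : List Bool) : ∀ (k : ℕ),
    Valid (A ++ alt b k ++ B) (RS b A B k) (A ++ B) := by
  intro k
  induction k with
  | zero => simp [RS, alt, Valid]
  | succ k ih =>
    refine ⟨by simp [Kind.src, alt], ?_⟩
    simpa [Kind.tgt] using ih

/-- The zigzag with two downward (`true`) or two upward (`false`) cusps on the upper strand of a pair of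
strands, the upper one being oriented to the right, if `c = false`. -/
def zz (c : Bool) : Bool → List Event
  | true => [⟨[c], .lc (!c), [!c]⟩, ⟨[c, !c], .rc c, []⟩]
  | false => [⟨[c, !c], .lc c, []⟩, ⟨[c], .rc (!c), [!c]⟩]

theorem zz_valid (c z : Bool) : Valid [c, !c] (zz c z) [c, !c] := by
  cases c <;> cases z <;> simp [zz, Valid, Kind.src, Kind.tgt]

/-- `k` zigzags -/
def zzs (c : Bool) (l : List Bool) : List Event := l.flatMap (zz c)

theorem zzs_valid (c : Bool) : ∀ l : List Bool, Valid [c, !c] (zzs c l) [c, !c] := by
  intro l
  induction l with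
  | nil => rfl
  | cons z l ih =>
    rw [zzs, List.flatMap_cons, valid_append]
    exact ⟨_, zz_valid c z, ih⟩

theorem zzs_append (c : Bool) (l l' : List Bool) : zzs c (l ++ l') = zzs c l ++ zzs c l' := by
  simp [zzs]

theorem block_up : ∀ k : ℕ,
    FarEq (LS false [false, true] [] k ++ RS true [false] [true] k)
      (zzs false (List.replicate k false)) := by
  intro k
  induction k with
  | zero => exact .refl _
  | succ k ih =>
    rw [LS_snoc, RS_snoc, List.replicate_succ', zzs_append]
    have h1 := slide (.lc false) [] [] (RS true [false] [true] k) _ _ (RS_valid true [false] [true] k)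
    have h2 := (FarEq.symm _ _ h1).congr (LS false [false, true] [] k) [⟨[false], .rc true, [true]⟩]
    have h3 := ih.right ([⟨[false, true], .lc false, []⟩] ++ [⟨[false], .rc true, [true]⟩])
    refine .trans _ _ _ ?_ (.trans _ _ _ h2 (.trans _ _ _ ?_ (.trans _ _ _ h3 ?_)))
    · have e : [false, true] ++ alt false k = [false] ++ alt true k ++ [true] := by
        rw [List.append_assoc, alt_shift]; rfl
      simp only [RS_addHi, Kind.src, Kind.tgt, List.append_nil, e, List.append_assoc,
        Bool.not_false, Bool.not_true, List.nil_append, List.cons_append]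
      exact .refl _
    · simp only [RS_addHi, Kind.src, Kind.tgt, List.append_nil, List.append_assoc,
        List.nil_append, List.cons_append]
      exact .refl _
    · simp only [zzs, List.flatMap_cons, List.flatMap_nil, zz, Bool.not_false, List.append_nil,
        List.nil_append, List.cons_append]
      exact .refl _

theorem block_down : ∀ k : ℕ,
    FarEq (LS true [false] [true] k ++ RS false [false, true] [] k)
      (zzs false (List.replicate k true)) := by
  intro k
  induction k with
  | zero => exact .refl _
  | succ k ih =>
    rw [LS_snoc, RS_snoc, List.replicate_succ, zzs, List.flatMap_cons, ← zzs]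
    -- the three slides
    have h1 := slide (.lc true) [] [true] (LS true [false] [] k) _ _ (LS_valid true [] k [false])
    have h2 := slide (.rc false) [] [] (RS false [false, true] [] k) _ _
      (RS_valid false [false, true] [] k)
    have h3 := slide (.rc false) [true] [] (LS true [false] [] k) _ _ (LS_valid true [] k [false])
    have e : [false] ++ alt true k ++ [] ++ [true] = [false, true] ++ alt false k ++ [] ++ [] := by
      rw [List.append_nil, List.append_nil, List.append_nil, List.append_assoc, alt_shift]; rfl
    rw [e] at h3
    have h1' := h1.right (RS false [false, true] [false, true] k ++ [⟨[false, true], .rc false, []⟩])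
    have h2' := h2.left ([⟨[false], .lc true, [true]⟩] ++ LS true [false] [true, false, true] k)
    have h3' := h3.congr [⟨[false], .lc true, [true]⟩] (RS false [false, true] [] k)
    have h4' := ih.left ([⟨[false], .lc true, [true]⟩] ++ [⟨[false, true], .rc false, []⟩])
    refine .trans _ _ _ ?_ (.trans _ _ _ h1' (.trans _ _ _ ?_ (.trans _ _ _ h2' (.trans _ _ _ ?_
      (.trans _ _ _ h3' (.trans _ _ _ ?_ (.trans _ _ _ h4' ?_)))))))
    · simp only [LS_addHi, RS_addHi, Kind.src, Kind.tgt, List.append_nil, List.append_assoc,
        List.nil_append, List.cons_append, Bool.not_false, Bool.not_true]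
      exact .refl _
    · simp only [LS_addHi, RS_addHi, Kind.src, Kind.tgt, List.append_nil, List.append_assoc,
        List.nil_append, List.cons_append, Bool.not_false, Bool.not_true]
      exact .refl _
    · simp only [LS_addHi, RS_addHi, Kind.src, Kind.tgt, List.append_nil, List.append_assoc,
        List.nil_append, List.cons_append, Bool.not_false, Bool.not_true]
      exact .refl _
    · simp only [LS_addHi, RS_addHi, Kind.src, Kind.tgt, List.append_nil, List.append_assoc,
        List.nil_append, List.cons_append, Bool.not_false, Bool.not_true]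
      exact .refl _
    · simp only [zz, List.nil_append, List.cons_append, Bool.not_false]
      exact .refl _

end Pool.Agent.T2h44.LM
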