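import Pool.Agent.T2h44.LM.Defs

set_option autoImplicit false

namespace Pool.Agent.T2h44.LM

/-! ### Validity -/

theorem valid_append (u v : List Event) : ∀ s t : List Bool,
    Valid s (u ++ v) t ↔ ∃ m, Valid s u m ∧ Valid m v t := by
  induction u with
  | nil => intro s t; simp [Valid]
  | cons e u ih =>
    intro s t
    simp only [List.cons_append, Valid, ih]
    constructor
    · rintro ⟨h, m, h1, h2⟩; exact ⟨m, ⟨h, h1⟩, h2⟩
    · rintro ⟨m, ⟨h, h1⟩, h2⟩; exact ⟨h, m, h1, h2⟩

/-! ### Far commutations -/

/-- The congruence generated by the far commutations. -/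
inductive FarEq : List Event → List Event → Prop
  | far (P Q : List Event) (A B C : List Bool) (k l : Kind) : FarEq
      (P ++ ([⟨A, k, B ++ l.src ++ C⟩, ⟨A ++ k.tgt ++ B, l, C⟩] ++ Q))
      (P ++ ([⟨A ++ k.src ++ B, l, C⟩, ⟨A, k, B ++ l.tgt ++ C⟩] ++ Q))
  | refl (u : List Event) : FarEq u u
  | symm (u v : List Event) : FarEq u v → FarEq v u
  | trans (u v w : List Event) : FarEq u v → FarEq v w → FarEq u w

theorem FarEq.congr {u v : List Event} (h : FarEq u v) (P Q : List Event) :
    FarEq (P ++ (u ++ Q)) (P ++ (v ++ Q)) := by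
  induction h with
  | far P' Q' A B C k l =>
    have := FarEq.far (P ++ P') (Q' ++ Q) A B C k l
    simpa only [List.append_assoc] using this
  | refl u => exact .refl _
  | symm u v _ ih => exact .symm _ _ ih
  | trans u v w _ _ ih1 ih2 => exact .trans _ _ _ ih1 ih2

theorem FarEq.left {u v : List Event} (h : FarEq u v) (P : List Event) :
    FarEq (P ++ u) (P ++ v) := by
  have := h.congr P []
  simpa using this

theorem FarEq.right {u v : List Event} (h : FarEq u v) (Q : List Event) :
    FarEq (u ++ Q) (v ++ Q) := by
  have := h.congr [] Q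
  simpa using this

theorem FarEq.valid {u v : List Event} (h : FarEq u v) : ∀ s t, Valid s u t ↔ Valid s v t := by
  induction h with
  | far P Q A B C k l =>
    intro s t
    simp only [valid_append, Valid, List.append_assoc, true_and, List.cons_append, List.nil_append]
  | refl u => intro s t; rfl
  | symm u v _ ih => intro s t; exact (ih s t).symm
  | trans u v w _ _ ih1 ih2 => intro s t; exact (ih1 s t).trans (ih2 s t)

theorem mk_eq_of_farEq {u v : List Event} (h : FarEq u v) :
    ∀ (hu : Valid [] u []) (hv : Valid [] v []), Link.mk ⟨u, hu⟩ = Link.mk ⟨v, hv⟩ := by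
  induction h with
  | far P Q A B C k l =>
    intro hu hv
    apply Quot.sound
    exact ⟨P, Q, _, _, .far A B C k l, by simp, by simp⟩
  | refl u => intro hu hv; rfl
  | symm u v _ ih => intro hu hv; exact (ih hv hu).symm
  | trans u v w h1 _ ih1 ih2 =>
    intro hu hw
    have hv : Valid [] v [] := (h1.valid _ _).1 hu
    exact (ih1 hu hv).trans (ih2 hv hw)

/-! ### Sliding an event over a word -/

/-- The event with further strands above it. -/
def Event.addHi (C : List Bool) (e : Event) : Event := ⟨e.lo, e.kind, e.hi ++ C⟩

theorem slide (l : Kind) (B C : List Bool) : ∀ (u : List Event) (s t : List Bool), Valid s u t →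
    FarEq (u.map (Event.addHi (B ++ l.src ++ C)) ++ [⟨t ++ B, l, C⟩])
      ([⟨s ++ B, l, C⟩] ++ u.map (Event.addHi (B ++ l.tgt ++ C))) := by
  intro u
  induction u with
  | nil =>
    intro s t h
    simp only [Valid] at h
    subst h
    exact .refl _
  | cons e u ih =>
    intro s t h
    obtain ⟨A, k, D⟩ := e
    simp only [Valid] at h
    obtain ⟨hs, h⟩ := h
    subst hs
    have h1 := (ih _ _ h).left [Event.addHi (B ++ l.src ++ C) ⟨A, k, D⟩]
    have h2 := FarEq.far [] (u.map (Event.addHi (B ++ l.tgt ++ C))) A (D ++ B) C k l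
    refine .trans _ _ _ ?_ (.trans _ _ _ h1 (.trans _ _ _ ?_ (.trans _ _ _ h2 ?_)))
    · simp only [List.map_cons, List.cons_append, List.nil_append]; exact .refl _
    · simp only [Event.addHi, List.append_assoc, List.nil_append, List.cons_append]; exact .refl _
    · simp only [Event.addHi, List.append_assoc, List.nil_append, List.cons_append, List.map_cons]
      exact .refl _

/-! ### Reading a diagonal in two passes -/

/-- The strands in the middle of a tile. -/
def Tile.mid : Tile → List Bool
  | .cap a => [a]
  | .cup a => [a]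
  | .up a => [a]
  | .down a => [a]
  | .capcup a b => [a, b]
  | .cross a b => [b, a]
  | _ => []

/-- The event in the left part of a tile. -/
def Tile.ev1 : Tile → List Kind
  | .rcusp b => [.rc b]
  | .cusps b _ => [.rc b]
  | .cross a b => [.xx a b]
  | _ => []

/-- The event in the right part of a tile. -/
def Tile.ev2 : Tile → List Kind
  | .lcusp b => [.lc b]
  | .cusps _ c => [.lc c]
  | _ => []

theorem Tile.events_eq (t : Tile) (A B : List Bool) :
    t.events A B = t.ev1.map (fun k => ⟨A, k, B⟩) ++ t.ev2.map (fun k => ⟨A, k, B⟩) := by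
  cases t <;> rfl

def mids (ts : List Tile) : List Bool := ts.flatMap Tile.mid

def pass1 : List Tile → List Bool → List Event
  | [], _ => []
  | t :: ts, A => t.ev1.map (fun k => ⟨A, k, lefts ts⟩) ++ pass1 ts (A ++ t.mid)

def pass2 : List Tile → List Bool → List Event
  | [], _ => []
  | t :: ts, A => t.ev2.map (fun k => ⟨A, k, mids ts⟩) ++ pass2 ts (A ++ t.right)

theorem ev1_cases (t : Tile) : (t.ev1 = [] ∧ t.left = t.mid) ∨
    (∃ k : Kind, t.ev1 = [k] ∧ k.src = t.left ∧ k.tgt = t.mid) := by
  cases t <;> simp [Tile.ev1, Tile.left, Tile.mid, Tile.sw, Tile.nw, Kind.src, Kind.tgt]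

theorem ev2_cases (t : Tile) : (t.ev2 = [] ∧ t.mid = t.right) ∨
    (∃ k : Kind, t.ev2 = [k] ∧ k.src = t.mid ∧ k.tgt = t.right) := by
  cases t <;> simp [Tile.ev2, Tile.right, Tile.mid, Tile.se, Tile.ne, Kind.src, Kind.tgt]

theorem slide_pass1 (k : Kind) : ∀ (ts : List Tile) (A B : List Bool),
    FarEq ([⟨A, k, B ++ lefts ts⟩] ++ pass1 ts (A ++ k.tgt ++ B))
      (pass1 ts (A ++ k.src ++ B) ++ [⟨A, k, B ++ mids ts⟩]) := by
  intro ts
  induction ts with
  | nil => intro A B; simp only [pass1, lefts, mids, List.flatMap_nil]; exact .refl _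
  | cons t ts ih =>
    intro A B
    have e1 : lefts (t :: ts) = t.left ++ lefts ts := by simp [lefts]
    have e2 : mids (t :: ts) = t.mid ++ mids ts := by simp [mids]
    rcases ev1_cases t with ⟨h1, h2⟩ | ⟨q, h1, h2, h3⟩
    · have := ih A (B ++ t.mid)
      simpa only [pass1, h1, List.map_nil, List.nil_append, e1, e2, h2, List.append_assoc] using this
    · have h4 := FarEq.far [] (pass1 ts (A ++ k.tgt ++ B ++ t.mid)) A B (lefts ts) k q
      have h5 := (ih A (B ++ t.mid)).left [⟨A ++ k.src ++ B, q, lefts ts⟩]
      refine .trans _ _ _ ?_ (.trans _ _ _ h4 (.trans _ _ _ ?_ (.trans _ _ _ h5 ?_)))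
      · simp only [pass1, h1, e1, h2, List.append_assoc, List.map_cons, List.map_nil,
          List.cons_append, List.nil_append]
        exact .refl _
      · simp only [h3, List.append_assoc, List.cons_append, List.nil_append]
        exact .refl _
      · simp only [pass1, h1, e2, List.append_assoc, List.map_cons, List.map_nil,
          List.cons_append, List.nil_append]
        exact .refl _

theorem read_farEq : ∀ (ts : List Tile) (A : List Bool),
    FarEq (read ts A) (pass1 ts A ++ pass2 ts A) := by
  intro ts
  induction ts with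
  | nil => intro A; exact .refl _
  | cons t ts ih =>
    intro A
    rcases ev2_cases t with ⟨h1, h2⟩ | ⟨q, h1, h2, h3⟩
    · have := (ih (A ++ t.right)).left (t.ev1.map (fun k => ⟨A, k, lefts ts⟩))
      simpa only [read, pass1, pass2, Tile.events_eq, h1, List.map_nil, List.append_nil, h2,
        List.nil_append, List.append_assoc] using this
    · have h4 := (ih (A ++ t.right)).left
        (t.ev1.map (fun k => ⟨A, k, lefts ts⟩) ++ [⟨A, q, lefts ts⟩])
      have h5 := (slide_pass1 q ts A []).congr (t.ev1.map (fun k => ⟨A, k, lefts ts⟩))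
        (pass2 ts (A ++ t.right))
      refine .trans _ _ _ ?_ (.trans _ _ _ h4 (.trans _ _ _ ?_ (.trans _ _ _ h5 ?_)))
      · simp only [read, Tile.events_eq, h1, List.map_cons, List.map_nil, List.append_assoc]
        exact .refl _
      · simp only [h3, List.append_nil, List.nil_append, List.append_assoc]
        exact .refl _
      · simp only [pass1, pass2, h1, h2, List.append_nil, List.nil_append, List.append_assoc,
          List.map_cons, List.map_nil]
        exact .refl _

theorem pass1_append (u v : List Tile) : ∀ A : List Bool,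
    pass1 (u ++ v) A = (pass1 u A).map (Event.addHi (lefts v)) ++ pass1 v (A ++ mids u) := by
  induction u with
  | nil => intro A; simp [pass1, mids]
  | cons t u ih =>
    intro A
    have e1 : lefts (u ++ v) = lefts u ++ lefts v := by simp [lefts]
    have e2 : mids (t :: u) = t.mid ++ mids u := by simp [mids]
    simp only [List.cons_append, pass1, ih, List.map_append, e1, e2, List.append_assoc]
    congr 1
    simp [Event.addHi]

theorem pass2_append (u v : List Tile) : ∀ A : List Bool,
    pass2 (u ++ v) A = (pass2 u A).map (Event.addHi (mids v)) ++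
      pass2 v (A ++ u.flatMap Tile.right) := by
  induction u with
  | nil => intro A; simp [pass2]
  | cons t u ih =>
    intro A
    have e1 : mids (u ++ v) = mids u ++ mids v := by simp [mids]
    simp only [List.cons_append, pass2, ih, List.map_append, e1, List.append_assoc,
      List.flatMap_cons]
    congr 1
    simp [Event.addHi]

end Pool.Agent.T2h44.LM
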