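import Pool.Agent.T2h44.LM.NF

set_option autoImplicit false
set_option linter.unusedSimpArgs false
set_option maxHeartbeats 4000000

namespace Pool.Agent.T2h44.LM

/-- The corner pattern with a zigzag. -/
def pat : Bool → ℕ → ℕ → Tile
  | true, 0, 0 => .lcusp false
  | true, 0, 1 => .down false
  | true, 1, 0 => .up true
  | true, 0, 2 => .cup false
  | true, 1, 1 => .lcusp true
  | true, 2, 0 => .cap true
  | true, 1, 2 => .capcup false true
  | true, 2, 1 => .rcusp false
  | true, 1, 3 => .cup false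
  | true, 2, 2 => .up true
  | true, 2, 3 => .up false
  | true, 3, 2 => .cap true
  | false, 0, 0 => .lcusp false
  | false, 0, 1 => .cup false
  | false, 1, 0 => .cap true
  | false, 1, 1 => .capcup false true
  | false, 2, 0 => .lcusp false
  | false, 1, 2 => .cup false
  | false, 2, 1 => .rcusp true
  | false, 3, 0 => .cap true
  | false, 2, 2 => .cap false
  | false, 3, 1 => .down true
  | false, 2, 3 => .cup false
  | false, 3, 2 => .down true
  | _, _, _ => .blank

/-- The mosaic `M`, beginning with a left cusp, with a zigzag inserted at the beginning. -/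
def ext (z : Bool) (M : ℕ → ℕ → Tile) (i j : ℕ) : Tile :=
  if i < 3 ∨ j < 3 then pat z i j
  else if i = 3 ∧ j = 3 then .capcup false true
  else M (i - 3) (j - 3)

theorem ext_pat (z : Bool) (M : ℕ → ℕ → Tile) (i j : ℕ) (h : i < 3 ∨ j < 3) :
    ext z M i j = pat z i j := by
  unfold ext; rw [if_pos h]

theorem ext_shift (z : Bool) (M : ℕ → ℕ → Tile) (i j : ℕ) (h : ¬ (i = 0 ∧ j = 0)) :
    ext z M (i + 3) (j + 3) = M i j := by
  unfold ext
  rw [if_neg (by omega), if_neg (by omega)]
  rfl

theorem ext_center (z : Bool) (M : ℕ → ℕ → Tile) : ext z M 3 3 = .capcup false true := rfl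

theorem pat_blank (z : Bool) (i j : ℕ) (h : 4 ≤ i ∨ 4 ≤ j) : pat z i j = .blank := by
  rcases i with _ | _ | _ | _ | i <;> rcases j with _ | _ | _ | _ | j <;>
    first | omega | (cases z <;> rfl)

theorem pat_ne (z : Bool) (i j : ℕ) (h : i < 2 ∨ j < 3) :
    (pat z i j).ne = (pat z (i + 1) j).sw := by
  by_cases h4 : 4 ≤ i ∨ 4 ≤ j
  · rw [pat_blank z i j h4, pat_blank z (i + 1) j (by omega)]; rfl
  · have hi : i < 4 := by omega
    have hj : j < 4 := by omega
    interval_cases i <;> interval_cases j <;> first | omega | (cases z <;> rfl)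

theorem pat_se (z : Bool) (i j : ℕ) (h : i < 3 ∨ j < 2) :
    (pat z i j).se = (pat z i (j + 1)).nw := by
  by_cases h4 : 4 ≤ i ∨ 4 ≤ j
  · rw [pat_blank z i j h4, pat_blank z i (j + 1) (by omega)]; rfl
  · have hi : i < 4 := by omega
    have hj : j < 4 := by omega
    interval_cases i <;> interval_cases j <;> first | omega | (cases z <;> rfl)

theorem ext_mosaic (z : Bool) (M : ℕ → ℕ → Tile) (n : ℕ) (hM : IsMosaic n M)
    (h0 : M 0 0 = .lcusp false) : IsMosaic (n + 3) (ext z M) := by
  have hn : 1 ≤ n := by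
    by_contra h
    have := hM.blank 0 0 (Or.inl (by omega))
    rw [h0] at this
    exact absurd this (by simp)
  have hs : (M 1 0).sw = some true := by rw [← hM.ne_sw 0 0, h0]; rfl
  have hw : (M 0 1).nw = some false := by rw [← hM.se_nw 0 0, h0]; rfl
  refine ⟨?_, ?_, ?_, ?_, ?_⟩
  · intro i j hij
    by_cases h : i < 3 ∨ j < 3
    · rw [ext_pat z M i j h, pat_blank z i j (by omega)]
    · obtain ⟨i, rfl⟩ : ∃ i', i = i' + 3 := ⟨i - 3, by omega⟩
      obtain ⟨j, rfl⟩ : ∃ j', j = j' + 3 := ⟨j - 3, by omega⟩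
      rw [ext_shift z M i j (by omega)]
      exact hM.blank _ _ (by omega)
  · intro j
    rw [ext_pat z M 0 j (by omega)]
    by_cases h4 : 4 ≤ j
    · rw [pat_blank z 0 j (by omega)]; rfl
    · have hj : j < 4 := by omega
      interval_cases j <;> cases z <;> rfl
  · intro i
    rw [ext_pat z M i 0 (by omega)]
    by_cases h4 : 4 ≤ i
    · rw [pat_blank z i 0 (by omega)]; rfl
    · have hi : i < 4 := by omega
      interval_cases i <;> cases z <;> rfl
  · intro i j
    by_cases h : i < 2 ∨ j < 3
    · rw [ext_pat z M i j (by omega), ext_pat z M (i + 1) j (by omega), pat_ne z i j h]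
    · obtain ⟨j, rfl⟩ : ∃ j', j = j' + 3 := ⟨j - 3, by omega⟩
      rcases Nat.eq_or_lt_of_le (show 2 ≤ i by omega) with rfl | hi
      · rw [ext_pat z M 2 (j + 3) (by omega)]
        rcases j with _ | j
        · cases z <;> rfl
        · have := ext_shift z M 0 (j + 1) (by omega)
          rw [show 2 + 1 = 0 + 3 from rfl, this, hM.sw, pat_blank z 2 (j + 1 + 3) (by omega)]
          rfl
      · obtain ⟨i, rfl⟩ : ∃ i', i = i' + 3 := ⟨i - 3, by omega⟩
        have e : i + 3 + 1 = (i + 1) + 3 := by ring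
        rw [e, ext_shift z M (i + 1) j (by omega)]
        by_cases h00 : i = 0 ∧ j = 0
        · obtain ⟨rfl, rfl⟩ := h00
          rw [hs]; rfl
        · rw [ext_shift z M i j h00]
          exact hM.ne_sw i j
  · intro i j
    by_cases h : i < 3 ∨ j < 2
    · rw [ext_pat z M i j (by omega), ext_pat z M i (j + 1) (by omega), pat_se z i j h]
    · obtain ⟨i, rfl⟩ : ∃ i', i = i' + 3 := ⟨i - 3, by omega⟩
      rcases Nat.eq_or_lt_of_le (show 2 ≤ j by omega) with rfl | hj
      · rw [ext_pat z M (i + 3) 2 (by omega)]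
        rcases i with _ | i
        · cases z <;> rfl
        · have := ext_shift z M (i + 1) 0 (by omega)
          rw [show 2 + 1 = 0 + 3 from rfl, this, hM.nw, pat_blank z (i + 1 + 3) 2 (by omega)]
          rfl
      · obtain ⟨j, rfl⟩ : ∃ j', j = j' + 3 := ⟨j - 3, by omega⟩
        have e : j + 3 + 1 = (j + 1) + 3 := by ring
        rw [e, ext_shift z M i (j + 1) (by omega)]
        by_cases h00 : i = 0 ∧ j = 0
        · obtain ⟨rfl, rfl⟩ := h00
          rw [hw]; rfl
        · rw [ext_shift z M i j h00]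
          exact hM.se_nw i j

theorem diagonal_ext (z : Bool) (M : ℕ → ℕ → Tile) : ∀ (j i : ℕ), 1 ≤ i + j →
    diagonal (ext z M) (i + 3) (j + 3) = diagonal M i j ++ [.blank, .blank, .blank] := by
  intro j
  induction j with
  | zero =>
    intro i hi
    simp only [zero_add, diagonal, List.cons_append, List.nil_append]
    have h := ext_shift z M i 0 (by omega)
    rw [zero_add] at h
    rw [h, ext_pat z M (i + 3 + 1) 2 (by omega), ext_pat z M (i + 3 + 1 + 1) 1 (by omega),
      ext_pat z M (i + 3 + 1 + 1 + 1) 0 (by omega), pat_blank z _ _ (by omega),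
      pat_blank z _ _ (by omega), pat_blank z _ _ (by omega)]
  | succ j ih =>
    intro i hi
    have e : j + 1 + 3 = (j + 3) + 1 := by ring
    have e' : i + 3 + 1 = (i + 1) + 3 := by ring
    rw [e, diagonal, e', ih (i + 1) (by omega), diagonal, List.cons_append]
    congr 1
    exact ext_shift z M i (j + 1) (by omega)

theorem read_blank_cons (ts : List Tile) (A : List Bool) :
    read (Tile.blank :: ts) A = read ts A := by
  simp [read, Tile.events, Tile.right, Tile.se, Tile.ne]

theorem lefts_blanks (ts : List Tile) :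
    lefts (ts ++ [.blank, .blank, .blank]) = lefts ts := by
  simp [lefts, Tile.left, Tile.sw, Tile.nw]

theorem read_blanks : ∀ (ts : List Tile) (A : List Bool),
    read (ts ++ [.blank, .blank, .blank]) A = read ts A := by
  intro ts
  induction ts with
  | nil => intro A; rfl
  | cons t ts ih =>
    intro A
    rw [List.cons_append, read, ih, lefts_blanks, read]

theorem read_ext (z : Bool) (M : ℕ → ℕ → Tile) (x : ℕ) (hx : 1 ≤ x) :
    read (diagonal (ext z M) 0 (x + 6)) [] = read (diagonal M 0 x) [] := by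
  have e : diagonal (ext z M) 0 (x + 6) = ext z M 0 (x + 6) :: ext z M 1 (x + 5) ::
      ext z M 2 (x + 4) :: diagonal (ext z M) (0 + 3) (x + 3) := rfl
  rw [e, diagonal_ext z M x 0 (by omega), ext_pat z M 0 _ (by omega), ext_pat z M 1 _ (by omega),
    ext_pat z M 2 _ (by omega), pat_blank z _ _ (by omega), pat_blank z _ _ (by omega),
    pat_blank z _ _ (by omega), read_blank_cons, read_blank_cons, read_blank_cons, read_blanks]

theorem readUpTo_ext (z : Bool) (M : ℕ → ℕ → Tile) (h0 : M 0 0 = .lcusp false) : ∀ x : ℕ,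
    ∃ w, readUpTo M (x + 1) = ⟨[], .lc false, []⟩ :: w ∧
      readUpTo (ext z M) (x + 7) = ⟨[], .lc false, []⟩ :: (zz false z ++ w) := by
  intro x
  induction x with
  | zero =>
    refine ⟨[], ?_, ?_⟩
    · simp only [readUpTo, diagonal, h0]; rfl
    · cases z <;> rfl
  | succ x ih =>
    obtain ⟨w, h1, h2⟩ := ih
    refine ⟨w ++ read (diagonal M 0 (x + 1)) [], ?_, ?_⟩
    · rw [readUpTo, h1]; rfl
    · have e : x + 1 + 7 = (x + 7) + 1 := by ring
      have e' : x + 7 = (x + 1) + 6 := by ring
      rw [e, readUpTo, h2, e', read_ext z M (x + 1) (by omega)]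
      simp

/-- The mosaic of the unknot of size `2`. -/
def base : ℕ → ℕ → Tile
  | 0, 0 => .lcusp false
  | 0, 1 => .cup false
  | 1, 0 => .cap true
  | 1, 1 => .rcusp false
  | _, _ => .blank

theorem base_mosaic : IsMosaic 2 base := by
  refine ⟨?_, ?_, ?_, ?_, ?_⟩
  · intro i j h
    rcases i with _ | _ | i <;> rcases j with _ | _ | j <;> first | omega | rfl
  · intro j
    rcases j with _ | _ | j <;> rfl
  · intro i
    rcases i with _ | _ | i <;> rfl
  · intro i j
    rcases i with _ | _ | i <;> rcases j with _ | _ | j <;> rfl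
  · intro i j
    rcases i with _ | _ | i <;> rcases j with _ | _ | j <;> rfl

theorem exists_mosaic (l : List Bool) : ∃ (n : ℕ) (M : ℕ → ℕ → Tile), 1 ≤ n ∧ IsMosaic n M ∧
    M 0 0 = .lcusp false ∧ frontWord n M = nfWord false l := by
  induction l with
  | nil => exact ⟨2, base, by omega, base_mosaic, rfl, rfl⟩
  | cons z l ih =>
    obtain ⟨n, M, hn, hM, h0, hw⟩ := ih
    refine ⟨n + 3, ext z M, by omega, ext_mosaic z M n hM h0, by cases z <;> rfl, ?_⟩
    obtain ⟨w, h1, h2⟩ := readUpTo_ext z M h0 (2 * n - 1)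
    have e1 : 2 * n - 1 + 1 = 2 * n := by omega
    have e2 : 2 * n - 1 + 7 = 2 * (n + 3) := by omega
    rw [e1] at h1
    rw [e2] at h2
    rw [frontWord, h1, nfWord, List.cons.injEq] at hw
    rw [frontWord, h2, hw.2]
    simp [nfWord, zzs]

/-- The links `nf l` have mosaics. -/
theorem nf_hasMosaic (l : List Bool) : ∃ n, HasMosaic (nf l) n := by
  obtain ⟨n, M, _, hM, _, hw⟩ := exists_mosaic l
  exact ⟨n, M, ⟨nfWord false l, nfWord_valid false l⟩, hM, hw.symm, rfl⟩

end Pool.Agent.T2h44.LM
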