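import Mathlib

/-!
# Legendrian knots by fronts, and Legendrian mosaics

Oriented fronts are written as words: reading a front from left to right one meets left cusps, right
cusps and crossings, and the strands between two such events are listed from bottom to top, `true` for
a strand oriented to the right and `false` for a strand oriented to the left. Every event records the
strands below it and the strands above it. Two fronts are Legendrian isotopic if and only if they are
related by planar isotopies (for words: events at different heights are interchanged) and the Legendrian
Reidemeister moves (Swiatkowski).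
-/

set_option autoImplicit false

namespace Pool.Agent.T2h44.LM

/-- The three kinds of events of an oriented front. `lc b` is a left cusp whose lower strand has the
orientation `b` (and whose upper strand has the opposite one), `rc b` is a right cusp whose lower strand
has the orientation `b`, and `xx a b` is a crossing at which the strand which is the lower one to the
left of the crossing has the orientation `a` and the other one the orientation `b`. (At a crossing of a
front the strand of more negative slope is the overstrand, so no other data are needed.) -/
inductive Kind
  | lc (b : Bool)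
  | rc (b : Bool)
  | xx (a b : Bool)
  deriving DecidableEq

/-- The strands (bottom to top) just to the left of an event. -/
def Kind.src : Kind → List Bool
  | .lc _ => []
  | .rc b => [b, !b]
  | .xx a b => [a, b]

/-- The strands (bottom to top) just to the right of an event. -/
def Kind.tgt : Kind → List Bool
  | .lc b => [b, !b]
  | .rc _ => []
  | .xx a b => [b, a]

/-- The kind of an event without the orientation: `0` for a left cusp, `1` for a right cusp, `2` for a
crossing. -/
def Kind.code : Kind → ℕ
  | .lc _ => 0
  | .rc _ => 1
  | .xx _ _ => 2

/-- The same event with all strands reversed. -/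
def Kind.rev : Kind → Kind
  | .lc b => .lc !b
  | .rc b => .rc !b
  | .xx a b => .xx (!a) (!b)

/-- An event of a front together with the strands below it (`lo`) and above it (`hi`). -/
structure Event where
  lo : List Bool
  kind : Kind
  hi : List Bool
  deriving DecidableEq

/-- `Valid s w t`: the word `w` is a piece of a front, with strands `s` at the left end and `t` at the
right end. -/
def Valid : List Bool → List Event → List Bool → Prop
  | s, [], t => s = t
  | s, e :: w, t => s = e.lo ++ e.kind.src ++ e.hi ∧ Valid (e.lo ++ e.kind.tgt ++ e.hi) w t

/-- An oriented front of a Legendrian link: a word without strands at the two ends. -/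
structure Front where
  word : List Event
  valid : Valid [] word []

/-- The pieces of fronts which may be replaced by each other: `far` interchanges two events which are
next to each other in the word and involve different strands; the others are the Legendrian Reidemeister
moves. `A` and `B` (and `C`) are the strands which are not involved. -/
inductive LocalMove : List Event → List Event → Prop
  /-- two events with disjoint strands, the first below the second -/
  | far (A B C : List Bool) (k l : Kind) : LocalMove
      [⟨A, k, B ++ l.src ++ C⟩, ⟨A ++ k.tgt ++ B, l, C⟩]
      [⟨A ++ k.src ++ B, l, C⟩, ⟨A, k, B ++ l.tgt ++ C⟩]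
  /-- first move, on a strand `a` -/
  | r1 (A B : List Bool) (a : Bool) : LocalMove
      [⟨A ++ [a], .lc a, B⟩, ⟨A, .xx a a, [!a] ++ B⟩, ⟨A ++ [a], .rc a, B⟩] []
  /-- first move, the picture turned upside down -/
  | r1' (A B : List Bool) (a : Bool) : LocalMove
      [⟨A, .lc (!a), [a] ++ B⟩, ⟨A ++ [!a], .xx a a, B⟩, ⟨A, .rc (!a), [a] ++ B⟩] []
  /-- second move: a strand `c` passes downwards through a left cusp -/
  | r2 (A B : List Bool) (b c : Bool) : LocalMove
      [⟨A, .lc b, [c] ++ B⟩, ⟨A ++ [b], .xx (!b) c, B⟩, ⟨A, .xx b c, [!b] ++ B⟩]
      [⟨A ++ [c], .lc b, B⟩]
  /-- second move: a strand `c` passes upwards through a left cusp -/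
  | r2' (A B : List Bool) (b c : Bool) : LocalMove
      [⟨A ++ [c], .lc b, B⟩, ⟨A, .xx c b, [!b] ++ B⟩, ⟨A ++ [b], .xx c (!b), B⟩]
      [⟨A, .lc b, [c] ++ B⟩]
  /-- second move: a strand `c` passes upwards through a right cusp -/
  | r2'' (A B : List Bool) (b c : Bool) : LocalMove
      [⟨A, .xx c b, [!b] ++ B⟩, ⟨A ++ [b], .xx c (!b), B⟩, ⟨A, .rc b, [c] ++ B⟩]
      [⟨A ++ [c], .rc b, B⟩]
  /-- second move: a strand `c` passes downwards through a right cusp -/
  | r2''' (A B : List Bool) (b c : Bool) : LocalMove
      [⟨A ++ [b], .xx (!b) c, B⟩, ⟨A, .xx b c, [!b] ++ B⟩, ⟨A ++ [c], .rc b, B⟩]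
      [⟨A, .rc b, [c] ++ B⟩]
  /-- third move -/
  | r3 (A B : List Bool) (a b c : Bool) : LocalMove
      [⟨A, .xx a b, [c] ++ B⟩, ⟨A ++ [b], .xx a c, B⟩, ⟨A, .xx b c, [a] ++ B⟩]
      [⟨A ++ [a], .xx b c, B⟩, ⟨A, .xx a c, [b] ++ B⟩, ⟨A ++ [c], .xx a b, B⟩]

/-- The front `g` is obtained from the front `f` by one move. -/
def Move (f g : Front) : Prop :=
  ∃ P Q u v : List Event, LocalMove u v ∧ f.word = P ++ u ++ Q ∧ g.word = P ++ v ++ Q

/-- Oriented Legendrian links up to Legendrian isotopy: fronts up to the equivalence relation generated
by the moves. -/
def Link : Type := Quot Move

/-- The Legendrian link with the given front. -/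
def Link.mk (f : Front) : Link := Quot.mk Move f

/-- An event without the orientations: its kind and the numbers of strands below and above it. -/
def Event.shape (e : Event) : ℕ × ℕ × ℕ := (e.lo.length, e.kind.code, e.hi.length)

/-- The same event with all strands reversed. -/
def Event.rev (e : Event) : Event := ⟨e.lo.map not, e.kind.rev, e.hi.map not⟩

/-- A front is connected if it is not empty and its only orientations are the given one and the opposite
one. -/
def Front.Connected (f : Front) : Prop :=
  f.word ≠ [] ∧ ∀ g : Front, g.word.map Event.shape = f.word.map Event.shape →
    g.word = f.word ∨ g.word = f.word.map Event.rev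

/-- A Legendrian knot is a Legendrian link with one component. -/
def Link.IsKnot (L : Link) : Prop := ∃ f : Front, f.Connected ∧ Link.mk f = L

/-- The two zigzags on a strand `a`, the strands below it being `A` and those above it `B`. In the first
one the strand leaves above the place where it enters, in the second one below. For `a = true` the first
one has two upward cusps and the second one two downward cusps, for `a = false` it is the other way
round. -/
inductive Zigzag : List Event → Prop
  | rising (A B : List Bool) (a : Bool) : Zigzag [⟨A ++ [a], .lc (!a), B⟩, ⟨A, .rc a, [a] ++ B⟩]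
  | falling (A B : List Bool) (a : Bool) : Zigzag [⟨A, .lc a, [a] ++ B⟩, ⟨A ++ [a], .rc (!a), B⟩]

/-- `L'` is obtained from `L` by one (positive or negative) stabilization: a zigzag is inserted in a
front of `L`. -/
def IsStabilization (L L' : Link) : Prop :=
  ∃ (f g : Front) (P Q z : List Event), Zigzag z ∧ f.word = P ++ Q ∧ g.word = P ++ z ++ Q ∧
    Link.mk f = L ∧ Link.mk g = L'

/-- The tiles of Legendrian mosaics, with oriented strands. The tile has the shape of a diamond, and its
edges are called SW, NW, SE, NE. A strand is `true` if it is oriented to the right.
* `blank`: no strand;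
* `rcusp b`: a right cusp, an arc between SW (orientation `b`) and NW;
* `lcusp b`: a left cusp, an arc between SE (orientation `b`) and NE;
* `cap a`: an arc between SW and SE; `cup a`: an arc between NW and NE;
* `up a`: the segment of slope `1` between SW and NE;
* `down a`: the segment of slope `-1` between NW and SE;
* `capcup a b`: the arcs of `cap a` and `cup b`;
* `cusps b c`: the arcs of `rcusp b` and `lcusp c`;
* `cross a b`: the segments of `up a` and `down b`, the second one is the overstrand. -/
inductive Tile
  | blank
  | rcusp (b : Bool)
  | lcusp (b : Bool)
  | cap (a : Bool)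
  | cup (a : Bool)
  | up (a : Bool)
  | down (a : Bool)
  | capcup (a b : Bool)
  | cusps (b c : Bool)
  | cross (a b : Bool)
  deriving DecidableEq

/-- The strand through the edge SW. -/
def Tile.sw : Tile → Option Bool
  | .rcusp b => some b
  | .cap a => some a
  | .up a => some a
  | .capcup a _ => some a
  | .cusps b _ => some b
  | .cross a _ => some a
  | _ => none

/-- The strand through the edge NW. -/
def Tile.nw : Tile → Option Bool
  | .rcusp b => some !b
  | .cup a => some a
  | .down a => some a
  | .capcup _ b => some b
  | .cusps b _ => some !b
  | .cross _ b => some b
  | _ => none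

/-- The strand through the edge SE. -/
def Tile.se : Tile → Option Bool
  | .lcusp b => some b
  | .cap a => some a
  | .down a => some a
  | .capcup a _ => some a
  | .cusps _ c => some c
  | .cross _ b => some b
  | _ => none

/-- The strand through the edge NE. -/
def Tile.ne : Tile → Option Bool
  | .lcusp b => some !b
  | .cup a => some a
  | .up a => some a
  | .capcup _ b => some b
  | .cusps _ c => some !c
  | .cross a _ => some a
  | _ => none

/-- The strands of a tile at its left edges, from bottom to top. -/
def Tile.left (t : Tile) : List Bool := t.sw.toList ++ t.nw.toList

/-- The strands of a tile at its right edges, from bottom to top. -/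
def Tile.right (t : Tile) : List Bool := t.se.toList ++ t.ne.toList

/-- The events of the front inside a tile, where `A` are the strands below and `B` the strands above the
tile. -/
def Tile.events (t : Tile) (A B : List Bool) : List Event :=
  match t with
  | .rcusp b => [⟨A, .rc b, B⟩]
  | .lcusp b => [⟨A, .lc b, B⟩]
  | .cusps b c => [⟨A, .rc b, B⟩, ⟨A, .lc c, B⟩]
  | .cross a b => [⟨A, .xx a b, B⟩]
  | _ => []

/-- A Legendrian `n`-mosaic with oriented strands. The tile `M i j` is the one in column `i` and row `j`
(counted from `0`) of the array before it is rotated by 45 degrees counterclockwise; after the rotation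
its centre is `(i + j, i - j)`, up to scaling, and the tiles `M (i + 1) j` and `M i (j + 1)` are adjacent
to its edges NE and SE. The array has size `n × n` and is continued by blank tiles. It is suitably
connected, with compatible orientations, and there is no strand through the outer boundary. -/
structure IsMosaic (n : ℕ) (M : ℕ → ℕ → Tile) : Prop where
  blank : ∀ i j, n ≤ i ∨ n ≤ j → M i j = .blank
  sw : ∀ j, (M 0 j).sw = none
  nw : ∀ i, (M i 0).nw = none
  ne_sw : ∀ i j, (M i j).ne = (M (i + 1) j).sw
  se_nw : ∀ i j, (M i j).se = (M i (j + 1)).nw

/-- The tiles `M i j, M (i + 1) (j - 1), ..., M (i + j) 0`. For `i = 0` these are all tiles with the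
same first coordinate of the centre, from bottom to top. -/
def diagonal (M : ℕ → ℕ → Tile) : ℕ → ℕ → List Tile
  | i, 0 => [M i 0]
  | i, j + 1 => M i (j + 1) :: diagonal M (i + 1) j

/-- The strands at the left edges of a list of tiles. -/
def lefts (ts : List Tile) : List Bool := ts.flatMap Tile.left

/-- The events of the front inside tiles which lie above each other and are listed from bottom to top,
where `A` are the strands below them. -/
def read : List Tile → List Bool → List Event
  | [], _ => []
  | t :: ts, A => t.events A (lefts ts) ++ read ts (A ++ t.right)

/-- The first `x` diagonals of a mosaic, read from left to right. -/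
def readUpTo (M : ℕ → ℕ → Tile) : ℕ → List Event
  | 0 => []
  | x + 1 => readUpTo M x ++ read (diagonal M 0 x) []

/-- The front drawn on an `n`-mosaic. -/
def frontWord (n : ℕ) (M : ℕ → ℕ → Tile) : List Event := readUpTo M (2 * n)

/-- The link `L` has a front which is drawn on some Legendrian `n`-mosaic. -/
def HasMosaic (L : Link) (n : ℕ) : Prop :=
  ∃ (M : ℕ → ℕ → Tile) (f : Front), IsMosaic n M ∧ f.word = frontWord n M ∧ Link.mk f = L

/-- The Legendrian mosaic number: the least `n` such that `L` has a front which is drawn on some
Legendrian `n`-mosaic. -/
noncomputable def mosaicNumber (L : Link) : ℕ∞ := ⨅ n ∈ {n | HasMosaic L n}, (n : ℕ∞)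

end Pool.Agent.T2h44.LM
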