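import Pool.Agent.T2h44.LM.Defs

set_option autoImplicit false
set_option linter.unusedSimpArgs false

open Finset

namespace Pool.Agent.T2h44.LM

/-- twice the contribution of an event to the rotation number -/
def Kind.rot2 : Kind → ℤ
  | .lc b => if b then 1 else -1
  | .rc b => if b then -1 else 1
  | .xx _ _ => 0

/-- twice the contribution of an event to the Thurston-Bennequin number -/
def Kind.tb2 : Kind → ℤ
  | .lc _ => -1
  | .rc _ => -1
  | .xx a b => if a = b then 2 else -2

/-- twice the rotation number -/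
def rot2 (w : List Event) : ℤ := (w.map fun e => e.kind.rot2).sum

/-- twice the Thurston-Bennequin number -/
def tb2 (w : List Event) : ℤ := (w.map fun e => e.kind.tb2).sum

theorem rot2_append (u v : List Event) : rot2 (u ++ v) = rot2 u + rot2 v := by simp [rot2]

theorem tb2_append (u v : List Event) : tb2 (u ++ v) = tb2 u + tb2 v := by simp [tb2]

theorem rot2_local {u v : List Event} (h : LocalMove u v) : rot2 u = rot2 v := by
  cases h with
  | far A B C k l => simp [rot2, add_comm]
  | r1 A B a => cases a <;> simp [rot2, Kind.rot2]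
  | r1' A B a => cases a <;> simp [rot2, Kind.rot2]
  | r2 A B b c => simp [rot2, Kind.rot2]
  | r2' A B b c => simp [rot2, Kind.rot2]
  | r2'' A B b c => simp [rot2, Kind.rot2]
  | r2''' A B b c => simp [rot2, Kind.rot2]
  | r3 A B a b c => simp [rot2, Kind.rot2]

theorem tb2_local {u v : List Event} (h : LocalMove u v) : tb2 u = tb2 v := by
  cases h with
  | far A B C k l => simp [tb2, add_comm]
  | r1 A B a => simp [tb2, Kind.tb2]
  | r1' A B a => simp [tb2, Kind.tb2]
  | r2 A B b c => cases b <;> cases c <;> simp [tb2, Kind.tb2]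
  | r2' A B b c => cases b <;> cases c <;> simp [tb2, Kind.tb2]
  | r2'' A B b c => cases b <;> cases c <;> simp [tb2, Kind.tb2]
  | r2''' A B b c => cases b <;> cases c <;> simp [tb2, Kind.tb2]
  | r3 A B a b c => simp only [tb2, Kind.tb2, List.map_cons, List.sum_cons, List.map_nil,
      List.sum_nil]; ring

/-- The invariant of a Legendrian link: `2 rot` and `2 tb`. -/
def Link.inv (L : Link) : ℤ × ℤ :=
  Quot.lift (fun f : Front => (rot2 f.word, tb2 f.word)) (by
    rintro f g ⟨P, Q, u, v, h, hf, hg⟩
    simp only [hf, hg, rot2_append, tb2_append, rot2_local h, tb2_local h]) L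

theorem inv_mk (f : Front) : (Link.mk f).inv = (rot2 f.word, tb2 f.word) := rfl

/-! ### The lower bound -/

/-- `2 (4 rot + tb)` for an event -/
def Kind.val (k : Kind) : ℤ := 4 * k.rot2 + k.tb2

def val (w : List Event) : ℤ := (w.map fun e => e.kind.val).sum

theorem val_eq (w : List Event) : val w = 4 * rot2 w + tb2 w := by
  induction w with
  | nil => rfl
  | cons e w ih =>
    simp only [val, rot2, tb2, List.map_cons, List.sum_cons] at ih ⊢
    rw [ih, Kind.val]; ring

theorem val_append (u v : List Event) : val (u ++ v) = val u + val v := by simp [val]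

def Tile.val (t : Tile) : ℤ := LM.val (t.events [] [])

theorem val_events (t : Tile) (A B : List Bool) : val (t.events A B) = t.val := by
  cases t <;> rfl

/-- `1` for a strand oriented to the right, `-1` for a strand oriented to the left -/
def sgn : Option Bool → ℤ
  | none => 0
  | some true => 1
  | some false => -1

theorem tile_le (t : Tile) : t.val ≤ 2 + (sgn t.se + sgn t.nw - sgn t.sw - sgn t.ne) := by
  cases t with
  | blank => decide
  | rcusp b => cases b <;> decide
  | lcusp b => cases b <;> decide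
  | cap b => cases b <;> decide
  | cup b => cases b <;> decide
  | up b => cases b <;> decide
  | down b => cases b <;> decide
  | capcup a b => cases a <;> cases b <;> decide
  | cusps a b => cases a <;> cases b <;> decide
  | cross a b => cases a <;> cases b <;> decide

theorem tile_flow (t : Tile) : sgn t.sw + sgn t.nw = sgn t.se + sgn t.ne := by
  cases t with
  | blank => decide
  | rcusp b => cases b <;> decide
  | lcusp b => cases b <;> decide
  | cap b => cases b <;> decide
  | cup b => cases b <;> decide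
  | up b => cases b <;> decide
  | down b => cases b <;> decide
  | capcup a b => cases a <;> cases b <;> decide
  | cusps a b => cases a <;> cases b <;> decide
  | cross a b => cases a <;> cases b <;> decide

theorem val_read : ∀ (ts : List Tile) (A : List Bool), val (read ts A) = (ts.map Tile.val).sum := by
  intro ts
  induction ts with
  | nil => intro A; rfl
  | cons t ts ih => intro A; simp [read, val_append, val_events, ih]

theorem sum_diagonal (M : ℕ → ℕ → Tile) : ∀ (j i : ℕ),
    ((diagonal M i j).map Tile.val).sum = ∑ k ∈ range (j + 1), (M (i + k) (j - k)).val := by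
  intro j
  induction j with
  | zero => intro i; simp [diagonal]
  | succ j ih =>
    intro i
    rw [sum_range_succ']
    simp only [diagonal, List.map_cons, List.sum_cons, ih, add_zero, tsub_zero]
    rw [add_comm]
    congr 1
    apply sum_congr rfl
    intro k _
    have e1 : i + 1 + k = i + (k + 1) := by omega
    have e2 : j + 1 - (k + 1) = j - k := by omega
    rw [e1, e2]

theorem val_readUpTo (M : ℕ → ℕ → Tile) (x : ℕ) :
    val (readUpTo M x) = ∑ y ∈ range x, ∑ p ∈ antidiagonal y, (M p.1 p.2).val := by
  induction x with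
  | zero => rfl
  | succ x ih =>
    rw [readUpTo, val_append, ih, sum_range_succ, val_read, sum_diagonal,
      Finset.Nat.sum_antidiagonal_eq_sum_range_succ (fun i j => (M i j).val)]
    simp

theorem val_frontWord {n : ℕ} {M : ℕ → ℕ → Tile} (hM : IsMosaic n M) :
    val (frontWord n M) = ∑ i ∈ range n, ∑ j ∈ range n, (M i j).val := by
  rw [frontWord, val_readUpTo, ← sum_product']
  rw [← sum_fiberwise_of_maps_to (s := range n ×ˢ range n) (t := range (2 * n))
    (g := fun p => p.1 + p.2) (f := fun p => (M p.1 p.2).val)]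
  · apply sum_congr rfl
    intro y _
    symm
    apply sum_subset
    · intro p hp
      simp only [mem_filter, HasAntidiagonal.mem_antidiagonal] at hp ⊢
      exact hp.2
    · intro p hp hp'
      simp only [mem_filter, mem_product, mem_range, HasAntidiagonal.mem_antidiagonal, not_and] at hp hp'
      have : n ≤ p.1 ∨ n ≤ p.2 := by
        by_contra hcon
        push Not at hcon
        exact hp' ⟨hcon.1, hcon.2⟩ hp
      rw [hM.blank _ _ this]
      rfl
  · intro p hp
    simp only [mem_product, mem_range] at hp ⊢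
    omega

theorem val_le {n : ℕ} {M : ℕ → ℕ → Tile} (hM : IsMosaic n M) :
    val (frontWord n M) ≤ 2 * (n : ℤ) ^ 2 := by
  rw [val_frontWord hM]
  set Φ : ℕ → ℕ → ℤ := fun i j => -(2 * (i : ℤ) - 2 * j - 1) * sgn (M i j).sw with hΦ
  set Ψ : ℕ → ℕ → ℤ := fun i j => -(2 * (i : ℤ) - 2 * j + 1) * sgn (M i j).nw with hΨ
  have key : ∀ i j, (M i j).val ≤ 2 + (Φ (i + 1) j - Φ i j) + (Ψ i (j + 1) - Ψ i j) := by
    intro i j
    have h1 := tile_le (M i j)
    have h2 := tile_flow (M i j)
    simp only [hΦ, hΨ, ← hM.ne_sw, ← hM.se_nw]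
    push_cast
    have : (2 + (sgn (M i j).se + sgn (M i j).nw - sgn (M i j).sw - sgn (M i j).ne) : ℤ) =
      2 + (-(2 * ((i : ℤ) + 1) - 2 * j - 1) * sgn (M i j).ne -
        -(2 * (i : ℤ) - 2 * j - 1) * sgn (M i j).sw) +
        (-(2 * (i : ℤ) - 2 * (j + 1) + 1) * sgn (M i j).se -
        -(2 * (i : ℤ) - 2 * j + 1) * sgn (M i j).nw) := by
      linear_combination (2 * ((i : ℤ) - j)) * (-h2)
    linarith
  have e1 : ∀ j, ∑ i ∈ range n, (Φ (i + 1) j - Φ i j) = 0 := by
    intro j
    have h0 : sgn (M 0 j).sw = 0 := by rw [hM.sw]; rfl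
    have h1 : sgn (M n j).sw = 0 := by rw [hM.blank n j (Or.inl le_rfl)]; rfl
    rw [sum_range_sub (fun i => Φ i j)]
    simp only [hΦ, h0, h1, mul_zero, sub_zero]
  have e2 : ∀ i, ∑ j ∈ range n, (Ψ i (j + 1) - Ψ i j) = 0 := by
    intro i
    have h0 : sgn (M i 0).nw = 0 := by rw [hM.nw]; rfl
    have h1 : sgn (M i n).nw = 0 := by rw [hM.blank i n (Or.inr le_rfl)]; rfl
    rw [sum_range_sub (fun j => Ψ i j)]
    simp only [hΨ, h0, h1, mul_zero, sub_zero]
  calc ∑ i ∈ range n, ∑ j ∈ range n, (M i j).val
      ≤ ∑ i ∈ range n, ∑ j ∈ range n, (2 + (Φ (i + 1) j - Φ i j) + (Ψ i (j + 1) - Ψ i j)) :=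
        sum_le_sum fun i _ => sum_le_sum fun j _ => key i j
    _ = ∑ i ∈ range n, ∑ j ∈ range n, (2 : ℤ) +
        ∑ j ∈ range n, ∑ i ∈ range n, (Φ (i + 1) j - Φ i j) +
        ∑ i ∈ range n, ∑ j ∈ range n, (Ψ i (j + 1) - Ψ i j) := by
        rw [sum_comm (f := fun j i => (Φ (i + 1) j - Φ i j))]
        simp only [sum_add_distrib]
    _ = 2 * (n : ℤ) ^ 2 := by
        simp only [e1, e2, sum_const_zero, sum_const, card_range, smul_eq_mul, nsmul_eq_mul]
        ring

/-- A Legendrian link with an `n`-mosaic has `2 (4 rot + tb) ≤ 2 n ^ 2`. -/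
theorem HasMosaic.le {L : Link} {n : ℕ} (h : HasMosaic L n) :
    4 * L.inv.1 + L.inv.2 ≤ 2 * (n : ℤ) ^ 2 := by
  obtain ⟨M, f, hM, hf, rfl⟩ := h
  have h1 := val_le hM
  rw [← hf, val_eq] at h1
  exact h1

end Pool.Agent.T2h44.LM
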