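import Pool.Agent.T2h44.LM.Snake

set_option autoImplicit false
set_option linter.unusedSimpArgs false

namespace Pool.Agent.T2h44.LM

/-- the word of `k` right cusps in front of an even (`true`) or odd (`false`) diagonal -/
def RB (b : Bool) (k : ℕ) : List Event :=
  if b then RS true [false] [true] k else RS false [false, true] [] k

/-- the word of `k` left cusps behind an even (`true`) or odd (`false`) diagonal -/
def LB (b : Bool) (k : ℕ) : List Event :=
  if b then LS true [false] [true] k else LS false [false, true] [] k

theorem evalT (t0 t1 : Tile) (m r : ℕ)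
    (h0 : t0 = .down false ∨ t0 = .cup false ∨ t0 = .up false)
    (h1 : t1 = .blank ∨ t1 = .lcusp true ∨ t1 = .rcusp true) :
    pass1 (t0 :: t1 :: (List.replicate m (Tile.cusps true true) ++
      (Tile.cap true :: List.replicate r Tile.blank))) [] =
      RB true (m + if t1 = .rcusp true then 1 else 0) ∧
    pass2 (t0 :: t1 :: (List.replicate m (Tile.cusps true true) ++
      (Tile.cap true :: List.replicate r Tile.blank))) [] =
      LB true (m + if t1 = .lcusp true then 1 else 0) := by
  set rest := Tile.cap true :: List.replicate r Tile.blank with hrest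
  obtain ⟨b1, b2, b3, b4⟩ := pass_blank' [false, true] r
  have l1 : lefts rest = [true] := by
    have : lefts rest = (Tile.cap true).left ++ lefts (List.replicate r Tile.blank) := by
      simp [hrest, lefts]
    rw [this, b3]; rfl
  have m1 : mids rest = [true] := by
    have : mids rest = (Tile.cap true).mid ++ mids (List.replicate r Tile.blank) := by
      simp [hrest, mids]
    rw [this, b4]; rfl
  have p1 : ∀ A, pass1 rest A = [] := by
    intro A
    rw [hrest, pass1, (pass_blank' _ r).1]; rfl
  have p2 : ∀ A, pass2 rest A = [] := by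
    intro A
    rw [hrest, pass2, (pass_blank' _ r).2.1]; rfl
  have hl : lefts (List.replicate m (Tile.cusps true true) ++ rest) = alt true m ++ [true] := by
    rw [(pass1_cusps true true rest [] m).1, l1]
  have hm : mids (List.replicate m (Tile.cusps true true) ++ rest) = [true] := by
    rw [(pass2_cusps true true rest m []).1, m1]
  have hp1 : pass1 (List.replicate m (Tile.cusps true true) ++ rest) [false] =
      RS true [false] [true] m := by
    rw [(pass1_cusps true true rest [false] m).2, l1, p1, List.append_nil]
  have hp2 : ∀ A, pass2 (List.replicate m (Tile.cusps true true) ++ rest) A =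
      LS true A [true] m := by
    intro A
    rw [(pass2_cusps true true rest m A).2, m1, p2, List.append_nil]
  have s1 : ∀ ts, pass1 (t0 :: ts) [] = pass1 ts [false] := by
    intro ts
    rcases h0 with rfl | rfl | rfl <;> rfl
  have s2 : ∀ ts, pass2 (t0 :: ts) [] = pass2 ts [false] := by
    intro ts
    rcases h0 with rfl | rfl | rfl <;> rfl
  rw [s1, s2]
  rcases h1 with rfl | rfl | rfl
  · refine ⟨?_, ?_⟩
    · simp only [pass1, Tile.ev1, Tile.mid, List.map_nil, List.nil_append, List.append_nil, hp1, RB]
      simp
    · simp only [pass2, Tile.ev2, Tile.right, Tile.se, Tile.ne, Option.toList_none, List.map_nil,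
        List.nil_append, List.append_nil, hp2, LB]
      simp
  · refine ⟨?_, ?_⟩
    · simp only [pass1, Tile.ev1, Tile.mid, List.map_nil, List.nil_append, List.append_nil, hp1, RB]
      simp
    · simp only [pass2, Tile.ev2, Tile.right, Tile.se, Tile.ne, Option.toList_some, List.map_nil,
        List.map_cons, List.cons_append, List.nil_append, hp2, hm, LB, if_true]
      rfl
  · refine ⟨?_, ?_⟩
    · simp only [pass1, Tile.ev1, Tile.mid, List.map_nil, List.nil_append, List.append_nil, hp1, RB,
        hl, List.map_cons, List.cons_append, if_true]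
      rfl
    · simp only [pass2, Tile.ev2, Tile.right, Tile.se, Tile.ne, Option.toList_none, List.map_nil,
        List.nil_append, List.append_nil, hp2, LB]
      simp

theorem evalF (t0 t1 : Tile) (m r : ℕ)
    (h0 : t0 = .down false ∨ t0 = .cup false ∨ t0 = .up false)
    (h1 : t1 = .lcusp false ∨ t1 = .rcusp false) :
    pass1 (t0 :: Tile.cup true :: (List.replicate m (Tile.cusps false false) ++
      (t1 :: List.replicate r Tile.blank))) [] =
      RB false (m + if t1 = .rcusp false then 1 else 0) ∧
    pass2 (t0 :: Tile.cup true :: (List.replicate m (Tile.cusps false false) ++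
      (t1 :: List.replicate r Tile.blank))) [] =
      LB false (m + if t1 = .lcusp false then 1 else 0) := by
  have s1 : ∀ ts, pass1 (t0 :: ts) [] = pass1 ts [false] := by
    intro ts
    rcases h0 with rfl | rfl | rfl <;> rfl
  have s2 : ∀ ts, pass2 (t0 :: ts) [] = pass2 ts [false] := by
    intro ts
    rcases h0 with rfl | rfl | rfl <;> rfl
  have s1' : ∀ ts, pass1 (Tile.cup true :: ts) [false] = pass1 ts [false, true] := fun ts => rfl
  have s2' : ∀ ts, pass2 (Tile.cup true :: ts) [false] = pass2 ts [false, true] := fun ts => rfl
  rw [s1, s2, s1', s2']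
  obtain ⟨b1, b2, b3, b4⟩ := pass_blank' [] r
  have l1 : lefts (t1 :: List.replicate r Tile.blank) = t1.left := by
    have : lefts (t1 :: List.replicate r Tile.blank) = t1.left ++ lefts (List.replicate r Tile.blank) := by
      simp [lefts]
    rw [this, b3, List.append_nil]
  have m1 : mids (t1 :: List.replicate r Tile.blank) = t1.mid := by
    have : mids (t1 :: List.replicate r Tile.blank) = t1.mid ++ mids (List.replicate r Tile.blank) := by
      simp [mids]
    rw [this, b4, List.append_nil]
  rw [(pass1_cusps false false _ [false, true] m).2, (pass2_cusps false false _ m [false, true]).2,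
    l1, m1]
  simp only [pass1, pass2, (pass_blank' _ r).1, (pass_blank' _ r).2.1, b3, b4, List.append_nil]
  rcases h1 with rfl | rfl
  · refine ⟨?_, ?_⟩
    · simp [Tile.left, Tile.sw, Tile.nw, Tile.ev1, RB]
    · simp only [Tile.mid, Tile.ev2, List.map_cons, List.map_nil, LB, if_true]
      rw [if_neg (by decide), LS_snoc]
  · refine ⟨?_, ?_⟩
    · simp only [Tile.left, Tile.sw, Tile.nw, Tile.ev1, RB, if_true, List.map_cons, List.map_nil,
        Option.toList_some]
      rw [if_neg (by decide), RS_snoc]
      rfl
    · simp [Tile.mid, Tile.ev2, LB]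

/-- the number of zigzags in a column of the snake -/
def kk (n s : ℕ) : ℕ := min (s - 1) (2 * n - 4 - s)

theorem level (n x : ℕ) (hn : n % 2 = 1) (h5 : 5 ≤ n) (h1 : 1 ≤ x) (h2 : x + 3 ≤ 2 * n) :
    pass1 (diagonal (snake n) 0 x) [] = RB (decide (x % 2 = 0)) (kk n (x - 1)) ∧
    pass2 (diagonal (snake n) 0 x) [] = LB (decide (x % 2 = 0)) (kk n x) := by
  rcases Nat.lt_or_ge x 2 with hx | hx
  · -- x = 1
    obtain rfl : x = 1 := by omega
    have e : diagonal (snake n) 0 1 = [Tile.down false, Tile.up true] := by
      simp only [diagonal]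
      congr 1
      · grind (splits := 30) [snake]
      · congr 1
        grind (splits := 30) [snake]
    rw [e]
    have k0 : kk n (1 - 1) = 0 := by simp [kk]
    have k1 : kk n 1 = 0 := by simp [kk]
    rw [k0, k1]
    exact ⟨rfl, rfl⟩
  rcases Nat.lt_or_ge x n with hxn | hxn
  · -- the left half
    obtain ⟨m, rfl⟩ : ∃ m, x = m + 2 := ⟨x - 2, by omega⟩
    have e : diagonal (snake n) 0 (m + 2) =
        snake n 0 (m + 2) :: snake n 1 (m + 1) :: diagonal (snake n) 2 m := rfl
    rw [e, diag_left n _ (m + 2) rfl (by omega) h5 hn m 2 (by omega) le_rfl]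
    have h0 : snake n 0 (m + 2) = .down false ∨ snake n 0 (m + 2) = .cup false ∨
        snake n 0 (m + 2) = .up false := by grind (splits := 30) [snake]
    rcases Nat.mod_two_eq_zero_or_one (m + 2) with hp | hp
    · have hd : decide ((m + 2) % 2 = 0) = true := by simp [hp]
      rw [hd]
      have h1' : snake n 1 (m + 1) = if m + 3 = n then .blank else .lcusp true := by
        grind (splits := 30) [snake]
      have := evalT _ (snake n 1 (m + 1)) m 0 h0 (by rw [h1']; split_ifs <;> simp)
      simp only [List.replicate_zero] at this
      simp only [if_true]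
      rw [this.1, this.2, h1']
      split_ifs <;> simp_all [kk] <;> constructor <;> congr 1 <;> omega
    · have hd : decide ((m + 2) % 2 = 0) = false := by simp [hp]
      rw [hd]
      have h1' : snake n 1 (m + 1) = .cup true := by
        grind (splits := 30) [snake]
      have := evalF _ (.lcusp false) m 0 h0 (Or.inl rfl)
      simp only [List.replicate_zero] at this
      rw [h1', if_neg (by decide), this.1, this.2]
      simp [kk]
      constructor <;> congr 1 <;> omega
  · obtain ⟨N, rfl⟩ : ∃ N, n = N + 3 := ⟨n - 3, by omega⟩
    obtain ⟨r, rfl⟩ : ∃ r, x = N + 2 + r := ⟨x - (N + 2), by omega⟩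
    rw [diag_start (N + 2) r 0, (pass_blank _ _ r).1, (pass_blank _ _ r).2.1, zero_add]
    have e : diagonal (snake (N + 3)) r (N + 2) =
        snake (N + 3) r (N + 2) :: snake (N + 3) (r + 1) (N + 1) ::
          diagonal (snake (N + 3)) (r + 2) N := rfl
    have e' : snake (N + 2 + 1) = snake (N + 3) := rfl
    rw [e', e]
    have h0 : snake (N + 3) r (N + 2) = .down false ∨ snake (N + 3) r (N + 2) = .cup false ∨
        snake (N + 3) r (N + 2) = .up false := by grind (splits := 30) [snake]
    rcases Nat.lt_or_ge (N + 2 + r + 3) (2 * (N + 3)) with hr | hr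
    · rw [diag_right (N + 3) _ (N + 2 + r) rfl (by omega) h5 hn (N - r) (r + 2) N (by omega) (by omega)
        (by omega) (by omega)]
      rcases Nat.mod_two_eq_zero_or_one (N + 2 + r) with hp | hp
      · have hd : decide ((N + 2 + r) % 2 = 0) = true := by simp [hp]
        rw [hd]
        have h1' : snake (N + 3) (r + 1) (N + 1) = .rcusp true := by
          grind (splits := 30) [snake]
        have := evalT _ (.rcusp true) (N - r) (N + 2 + r - (N + 3) + 1) h0 (by simp)
        simp only [if_true]
        rw [h1', this.1, this.2]
        simp [kk]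
        constructor <;> congr 1 <;> omega
      · have hd : decide ((N + 2 + r) % 2 = 0) = false := by simp [hp]
        rw [hd]
        have h1' : snake (N + 3) (r + 1) (N + 1) = .cup true := by
          grind (splits := 30) [snake]
        have := evalF _ (.rcusp false) (N - r) (N + 2 + r - (N + 3) + 1) h0 (Or.inr rfl)
        rw [h1', if_neg (by decide), this.1, this.2]
        simp [kk]
        constructor <;> congr 1 <;> omega
    · obtain rfl : r = N + 1 := by omega
      have h1' : snake (N + 3) (N + 1 + 1) (N + 1) = .down true := by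
        grind (splits := 30) [snake]
      rw [h1', diag_end (N + 3) N (N + 1 + 2) (by omega)]
      have k0 : kk (N + 3) (N + 2 + (N + 1) - 1) = 0 := by simp [kk]; omega
      have k1 : kk (N + 3) (N + 2 + (N + 1)) = 0 := by simp [kk]; omega
      rw [k0, k1]
      have hd : decide ((N + 2 + (N + 1)) % 2 = 0) = false := by simp; omega
      rw [hd]
      rcases h0 with h0 | h0 | h0 <;> rw [h0] <;>
        simp [pass1, pass2, (pass_blank' _ (N + 1)).1, (pass_blank' _ (N + 1)).2.1, Tile.ev1,
          Tile.ev2, RB, LB, RS, LS]

theorem level_first (n : ℕ) (h5 : 5 ≤ n) : diagonal (snake n) 0 0 = [Tile.lcusp false] := by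
  grind (splits := 30) [snake, diagonal]

theorem level_last (n : ℕ) (h5 : 5 ≤ n) :
    read (diagonal (snake n) 0 (2 * n - 2)) [] = [⟨[], .rc false, []⟩] := by
  obtain ⟨N, rfl⟩ : ∃ N, n = N + 2 := ⟨n - 2, by omega⟩
  have e : 2 * (N + 2) - 2 = N + 1 + (N + 1) := by omega
  rw [e, diag_start (N + 1) (N + 1) 0, zero_add]
  have e' : diagonal (snake (N + 1 + 1)) (N + 1) (N + 1) =
      snake (N + 2) (N + 1) (N + 1) :: diagonal (snake (N + 2)) (N + 2) N := rfl
  rw [e', diag_end (N + 2) N (N + 2) le_rfl]
  have h1 : snake (N + 2) (N + 1) (N + 1) = .rcusp false := by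
    grind (splits := 30) [snake]
  rw [h1]
  have hb : ∀ (m : ℕ) (ts : List Tile) (A : List Bool),
      read (List.replicate m Tile.blank ++ ts) A = read ts A := by
    intro m
    induction m with
    | zero => intro ts A; simp
    | succ m ih =>
      intro ts A
      rw [List.replicate_succ, List.cons_append, read, ih]
      simp [Tile.events, Tile.right, Tile.se, Tile.ne]
  have hb' : ∀ (m : ℕ) (A : List Bool), read (List.replicate m Tile.blank) A = [] := by
    intro m A
    have := hb m [] A
    simpa [read] using this
  rw [hb, read, hb', (pass_blank' [] _).2.2.1]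
  rfl

end Pool.Agent.T2h44.LM
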