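import Pool.Agent.T2h44.LM.Word
import Pool.Agent.T2h44.LM.Corner

set_option autoImplicit false

namespace Pool.Agent.T2h44.LM

/-- Removing the entries `false` one at a time. -/
theorem chain (Q : List Bool → Prop) : ∀ (l pre : List Bool),
    Q (pre ++ List.replicate (l.count true) true) → ¬ Q (pre ++ l) →
    ∃ a b, Q (a ++ b) ∧ ¬ Q (a ++ false :: b) ∧
      (a ++ b).count true = (pre ++ l).count true := by
  intro l
  induction l with
  | nil => intro pre h1 h2; simp at h1 h2; exact absurd h1 h2
  | cons z l ih =>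
    intro pre h1 h2
    cases z with
    | true =>
      have e1 : pre ++ List.replicate ((true :: l).count true) true =
          (pre ++ [true]) ++ List.replicate (l.count true) true := by
        simp [List.replicate_succ]
      have e2 : pre ++ true :: l = (pre ++ [true]) ++ l := by simp
      rw [e1] at h1
      rw [e2] at h2
      obtain ⟨a, b, h3, h4, h5⟩ := ih (pre ++ [true]) h1 h2
      exact ⟨a, b, h3, h4, by rw [h5, e2]⟩
    | false =>
      have e1 : (false :: l).count true = l.count true := by simp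
      rw [e1] at h1
      by_cases h : Q (pre ++ l)
      · exact ⟨pre, l, h, h2, by simp⟩
      · obtain ⟨a, b, h3, h4, h5⟩ := ih pre h1 h
        exact ⟨a, b, h3, h4, by rw [h5]; simp⟩

theorem lower (a m : ℕ) (h : HasMosaic (nf (List.replicate a true)) m) :
    3 * (a : ℤ) - 1 ≤ (m : ℤ) ^ 2 := by
  have := h.le
  rw [inv_nf] at this
  simp [List.count_replicate] at this
  linarith

theorem exists_large (N : ℕ) : ∃ L : Link, (L.IsKnot ∧ mosaicNumber L ≠ ⊤ ∧
    ∃ L' : Link, IsStabilization L L' ∧ mosaicNumber L' < mosaicNumber L) ∧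
    (N : ℤ) ≤ L.inv.1 - L.inv.2 := by
  set P := max 6 N with hP
  have hP6 : 6 ≤ P := le_max_left _ _
  have hPN : N ≤ P := le_max_right _ _
  set n := 2 * P + 3 with hn
  set l := lst n (2 * n - 3) with hl
  have hc : l.count true = P * (2 * P + 1) := count_lst P n hn
  have hM : HasMosaic (nf l) n := hasMosaic_snake n (by omega) (by omega)
  obtain ⟨a, b, h1, h2, h3⟩ := chain (fun l => ∀ m ≤ n, ¬ HasMosaic (nf l) m) l []
    (by
      intro m hm h
      rw [List.nil_append] at h
      have h' := lower _ m h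
      rw [hc] at h'
      push_cast at h'
      have hm' : (m : ℤ) ≤ 2 * P + 3 := by exact_mod_cast hm
      have h6 : (6 : ℤ) ≤ P := by exact_mod_cast hP6
      have h0 : (0 : ℤ) ≤ m := by positivity
      nlinarith)
    (by
      intro h
      exact h n le_rfl (by simpa using hM))
  rw [List.nil_append, hc] at h3
  push Not at h2
  obtain ⟨m, hm, hm'⟩ := h2
  refine ⟨nf (a ++ b), ⟨nf_isKnot _, ?_, nf (a ++ false :: b), nf_stab a b false, ?_⟩, ?_⟩
  · obtain ⟨k, hk⟩ := nf_hasMosaic (a ++ b)
    have : mosaicNumber (nf (a ++ b)) ≤ (k : ℕ∞) := iInf₂_le k hk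
    intro htop
    rw [htop, top_le_iff] at this
    exact ENat.natCast_ne_top k this
  · have h4 : mosaicNumber (nf (a ++ false :: b)) ≤ (m : ℕ∞) := iInf₂_le m hm'
    have h5 : ((n + 1 : ℕ) : ℕ∞) ≤ mosaicNumber (nf (a ++ b)) := by
      refine le_iInf₂ fun k hk => ?_
      have : n + 1 ≤ k := by
        by_contra hcon
        exact h1 k (by omega) hk
      exact_mod_cast this
    have h6 : (m : ℕ∞) < ((n + 1 : ℕ) : ℕ∞) := by
      have : m < n + 1 := by omega
      exact_mod_cast this
    exact lt_of_le_of_lt h4 (lt_of_lt_of_le h6 h5)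
  · rw [inv_nf, h3]
    push_cast
    have h6 : (6 : ℤ) ≤ P := by exact_mod_cast hP6
    have h7 : (N : ℤ) ≤ P := by exact_mod_cast hPN
    have h8 : (0 : ℤ) ≤ (P : ℤ) * P := by positivity
    nlinarith

theorem main : Set.Infinite {L : Link | L.IsKnot ∧ mosaicNumber L ≠ ⊤ ∧
    ∃ L' : Link, IsStabilization L L' ∧ mosaicNumber L' < mosaicNumber L} := by
  apply Set.Infinite.of_image (fun L : Link => L.inv.1 - L.inv.2)
  apply Set.infinite_of_not_bddAbove
  rintro ⟨B, hB⟩
  obtain ⟨L, hL, hN⟩ := exists_large (B.toNat + 1)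
  have h1 : L.inv.1 - L.inv.2 ≤ B := hB (Set.mem_image_of_mem _ hL)
  push_cast at hN
  have := Int.self_le_toNat B
  linarith

end Pool.Agent.T2h44.LM
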