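import Pool.Agent.T2h44.LM.Block
import Pool.Agent.T2h44.LM.Inv

set_option autoImplicit false
set_option linter.unusedSimpArgs false

namespace Pool.Agent.T2h44.LM

/-- The unknot with zigzags on its upper strand. -/
def nfWord (c : Bool) (l : List Bool) : List Event :=
  ⟨[], .lc c, []⟩ :: (zzs c l ++ [⟨[], .rc c, []⟩])

theorem nfWord_valid (c : Bool) (l : List Bool) : Valid [] (nfWord c l) [] := by
  refine ⟨rfl, ?_⟩
  rw [valid_append]
  exact ⟨_, zzs_valid c l, rfl, rfl⟩

/-- The link with the front `nfWord false l`. -/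
def nf (l : List Bool) : Link := Link.mk ⟨nfWord false l, nfWord_valid false l⟩

theorem rev_zz (c z : Bool) : (zz c z).map Event.rev = zz (!c) z := by
  cases c <;> cases z <;> decide

theorem rev_nfWord (c : Bool) (l : List Bool) : (nfWord c l).map Event.rev = nfWord (!c) l := by
  have h : ∀ l : List Bool, (zzs c l).map Event.rev = zzs (!c) l := by
    intro l
    induction l with
    | nil => rfl
    | cons z l ih =>
      rw [zzs, List.flatMap_cons, ← zzs, List.map_append, rev_zz, ih]
      rfl
  simp only [nfWord, List.map_cons, List.map_append, h, List.map_nil]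
  rfl

theorem shape_zz (z : Bool) (c c' : Bool) (w : List Event) (t : List Bool)
    (hw : Valid [c, !c] w t) (w2 : List (ℕ × ℕ × ℕ))
    (hs : w.map Event.shape = (zz c' z).map Event.shape ++ w2) :
    ∃ w', w = zz c z ++ w' ∧ Valid [c, !c] w' t ∧ w'.map Event.shape = w2 := by
  have hlen : ∃ e1 e2 w', w = e1 :: e2 :: w' := by
    match w, hs with
    | [], hs => exfalso; cases z <;> simp [zz] at hs
    | [e1], hs => exfalso; cases z <;> simp [zz] at hs
    | e1 :: e2 :: w', hs => exact ⟨e1, e2, w', rfl⟩
  obtain ⟨⟨A1, k1, B1⟩, ⟨A2, k2, B2⟩, w', rfl⟩ := hlen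
  simp only [Valid] at hw
  obtain ⟨h1, h2, h3⟩ := hw
  refine ⟨w', ?_⟩
  cases z with
  | true =>
    simp only [zz, List.map_cons, List.map_nil, Event.shape, List.cons_append, List.nil_append,
      List.cons.injEq, Prod.mk.injEq, List.length_cons, List.length_nil, Kind.code] at hs
    obtain ⟨⟨a1, a2, a3⟩, ⟨b1, b2, b3⟩, hs⟩ := hs
    obtain ⟨x, rfl⟩ := List.length_eq_one_iff.1 a1
    obtain ⟨y, rfl⟩ := List.length_eq_one_iff.1 a3
    obtain ⟨u, v, rfl⟩ := List.length_eq_two.1 b1
    have hB2 : B2 = [] := List.length_eq_zero_iff.1 b3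
    subst hB2
    cases k1 with
    | rc b => simp [Kind.code] at a2
    | xx a b => simp [Kind.code] at a2
    | lc e =>
      cases k2 with
      | lc b => simp [Kind.code] at b2
      | xx a b => simp [Kind.code] at b2
      | rc e2 =>
        simp only [Kind.src, Kind.tgt, List.append_nil, List.cons_append, List.nil_append,
          List.cons.injEq, and_true] at h1 h2 h3
        obtain ⟨rfl, rfl⟩ := h1
        obtain ⟨rfl, rfl, rfl, h5⟩ := h2
        have : e = !c := by rw [h5, Bool.not_not]
        subst this
        refine ⟨?_, ?_, hs⟩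
        · simp [zz]
        · simpa using h3
  | false =>
    simp only [zz, List.map_cons, List.map_nil, Event.shape, List.cons_append, List.nil_append,
      List.cons.injEq, Prod.mk.injEq, List.length_cons, List.length_nil, Kind.code] at hs
    obtain ⟨⟨a1, a2, a3⟩, ⟨b1, b2, b3⟩, hs⟩ := hs
    obtain ⟨x, y, rfl⟩ := List.length_eq_two.1 a1
    have hB1 : B1 = [] := List.length_eq_zero_iff.1 a3
    subst hB1
    obtain ⟨u, rfl⟩ := List.length_eq_one_iff.1 b1
    obtain ⟨v, rfl⟩ := List.length_eq_one_iff.1 b3
    cases k1 with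
    | rc b => simp [Kind.code] at a2
    | xx a b => simp [Kind.code] at a2
    | lc e =>
      cases k2 with
      | lc b => simp [Kind.code] at b2
      | xx a b => simp [Kind.code] at b2
      | rc e2 =>
        simp only [Kind.src, Kind.tgt, List.append_nil, List.cons_append, List.nil_append,
          List.cons.injEq, and_true] at h1 h2 h3
        obtain ⟨rfl, rfl⟩ := h1
        obtain ⟨rfl, rfl, h5, rfl⟩ := h2
        have : e = c := by rw [h5, Bool.not_not]
        subst this
        refine ⟨?_, ?_, hs⟩
        · simp [zz]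
        · simpa using h3

theorem shape_zzs (c c' : Bool) : ∀ (l : List Bool) (w : List Event),
    Valid [c, !c] w [] →
    w.map Event.shape = (zzs c' l ++ [(⟨[], .rc c', []⟩ : Event)]).map Event.shape →
    w = zzs c l ++ [⟨[], .rc c, []⟩] := by
  intro l
  induction l with
  | nil =>
    intro w hw hs
    match w, hs with
    | [], hs => simp [zzs] at hs
    | e1 :: e2 :: w', hs => simp [zzs] at hs
    | [⟨A, k, B⟩], hs =>
      simp only [zzs, List.flatMap_nil, List.nil_append, List.map_cons, List.map_nil,
        List.cons.injEq, and_true, Event.shape, Prod.mk.injEq, List.length_nil, Kind.code,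
        List.length_eq_zero_iff] at hs
      obtain ⟨rfl, hk, rfl⟩ := hs
      cases k with
      | lc b => simp [Kind.code] at hk
      | xx a b => simp [Kind.code] at hk
      | rc b =>
        simp only [Valid, Kind.src, Kind.tgt, List.append_nil, List.nil_append, List.cons.injEq,
          and_true] at hw
        obtain ⟨rfl, _⟩ := hw
        simp [zzs]
  | cons z l ih =>
    intro w hw hs
    have e : zzs c' (z :: l) = zz c' z ++ zzs c' l := by simp [zzs]
    rw [e, List.append_assoc, List.map_append] at hs
    obtain ⟨w', rfl, h1, h2⟩ := shape_zz z c c' w [] hw _ hs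
    rw [ih w' h1 h2]
    simp [zzs]

theorem nf_isKnot (l : List Bool) : (nf l).IsKnot := by
  refine ⟨⟨nfWord false l, nfWord_valid false l⟩, ⟨by simp [nfWord], ?_⟩, rfl⟩
  rintro ⟨w, hw⟩ hs
  simp only at hs
  simp only [rev_nfWord]
  have : ∃ c, w = nfWord c l := by
    match w, hs with
    | [], hs => simp [nfWord] at hs
    | ⟨A, k, B⟩ :: w, hs =>
      simp only [nfWord, List.map_cons, List.cons.injEq, Event.shape, Prod.mk.injEq,
        List.length_nil, Kind.code, List.length_eq_zero_iff] at hs
      obtain ⟨⟨rfl, hk, rfl⟩, hs⟩ := hs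
      cases k with
      | rc b => simp [Kind.code] at hk
      | xx a b => simp [Kind.code] at hk
      | lc b =>
        simp only [Valid, Kind.tgt, List.append_nil, List.nil_append] at hw
        have := shape_zzs b false l w hw.2 hs
        exact ⟨b, by rw [this]; rfl⟩
  obtain ⟨c, rfl⟩ := this
  cases c
  · exact Or.inl rfl
  · exact Or.inr rfl

/-- Adding a zigzag is a stabilization. -/
theorem nf_stab (l l' : List Bool) (z : Bool) :
    IsStabilization (nf (l ++ l')) (nf (l ++ z :: l')) := by
  refine ⟨⟨_, nfWord_valid false (l ++ l')⟩, ⟨_, nfWord_valid false (l ++ z :: l')⟩,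
    ⟨[], .lc false, []⟩ :: zzs false l, zzs false l' ++ [⟨[], .rc false, []⟩], zz false z,
    ?_, ?_, ?_, rfl, rfl⟩
  · cases z
    · exact Zigzag.rising [false] [] true
    · exact Zigzag.falling [false] [] true
  · simp [nfWord, zzs]
  · simp [nfWord, zzs]

theorem inv_nf (l : List Bool) : (nf l).inv =
    (2 * (l.count true : ℤ) - 2 * l.count false, -2 - 2 * (l.count true : ℤ) - 2 * l.count false) := by
  rw [nf, inv_mk]
  have h : ∀ l : List Bool, rot2 (zzs false l) = 2 * (l.count true : ℤ) - 2 * l.count false ∧
      tb2 (zzs false l) = - 2 * (l.count true : ℤ) - 2 * l.count false := by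
    intro l
    induction l with
    | nil => simp [zzs, rot2, tb2]
    | cons z l ih =>
      have e : zzs false (z :: l) = zz false z ++ zzs false l := by simp [zzs]
      rw [e, rot2_append, tb2_append, ih.1, ih.2]
      cases z
      · simp [zz, rot2, tb2, Kind.rot2, Kind.tb2]; constructor <;> ring
      · simp [zz, rot2, tb2, Kind.rot2, Kind.tb2]; constructor <;> ring
  have e : nfWord false l = [⟨[], .lc false, []⟩] ++ (zzs false l ++ [⟨[], .rc false, []⟩]) := rfl
  simp only [e, rot2_append, tb2_append, (h l).1, (h l).2]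
  simp [rot2, tb2, Kind.rot2, Kind.tb2]
  ring

end Pool.Agent.T2h44.LM
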