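import Pool.Agent.T2h44.LM.NF

set_option autoImplicit false
set_option linter.unusedSimpArgs false

namespace Pool.Agent.T2h44.LM

/-- The snake mosaic of odd size `n`. -/
def snake (n i j : ℕ) : Tile :=
  if n ≤ i ∨ n ≤ j then .blank
  else if i = 0 then
    (if j = 0 then .lcusp false else if j + 1 = n then .cup false else .down false)
  else if j + 1 = n then (if i + 1 = n then .rcusp false else .up false)
  else if i + j = 1 then .up true
  else if i + j + 3 = 2 * n then .down true
  else if (i + j) % 2 = 0 then
    (if j = 0 ∨ i + 1 = n then .cap true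
    else if i = 1 then (if j + 2 = n then .blank else .lcusp true)
    else if j + 2 = n then .rcusp true
    else .cusps true true)
  else
    (if i = 1 ∨ j + 2 = n then .cup true
    else if j = 0 then .lcusp false
    else if i + 1 = n then .rcusp false
    else .cusps false false)

theorem snake_mosaic (n : ℕ) (hn : n % 2 = 1) (h5 : 5 ≤ n) : IsMosaic n (snake n) where
  blank i j h := by simp only [snake, if_pos h]
  sw j := by grind (splits := 30) [snake, Tile.sw]
  nw i := by grind (splits := 30) [snake, Tile.nw]
  ne_sw i j := by grind (splits := 30) [snake, Tile.ne, Tile.sw]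
  se_nw i j := by grind (splits := 30) [snake, Tile.se, Tile.nw]

theorem pass1_cusps (b c : Bool) (rest : List Tile) (A : List Bool) : ∀ m : ℕ,
    lefts (List.replicate m (Tile.cusps b c) ++ rest) = alt b m ++ lefts rest ∧
    pass1 (List.replicate m (Tile.cusps b c) ++ rest) A = RS b A (lefts rest) m ++ pass1 rest A := by
  intro m
  induction m with
  | zero => simp [alt, RS]
  | succ m ih =>
    refine ⟨?_, ?_⟩
    · rw [List.replicate_succ, List.cons_append]
      have e : lefts (Tile.cusps b c :: (List.replicate m (Tile.cusps b c) ++ rest)) =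
        (Tile.cusps b c).left ++ lefts (List.replicate m (Tile.cusps b c) ++ rest) := by simp [lefts]
      rw [e, ih.1]
      simp [Tile.left, Tile.sw, Tile.nw, alt]
    · rw [List.replicate_succ, List.cons_append, pass1, ih.1]
      simp only [Tile.mid, List.append_nil, ih.2, Tile.ev1, RS, List.map_cons, List.map_nil,
        List.cons_append, List.nil_append]

theorem pass2_cusps (b c : Bool) (rest : List Tile) : ∀ (m : ℕ) (A : List Bool),
    mids (List.replicate m (Tile.cusps b c) ++ rest) = mids rest ∧
    pass2 (List.replicate m (Tile.cusps b c) ++ rest) A =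
      LS c A (mids rest) m ++ pass2 rest (A ++ alt c m) := by
  intro m
  induction m with
  | zero => intro A; simp [alt, LS]
  | succ m ih =>
    intro A
    refine ⟨?_, ?_⟩
    · rw [List.replicate_succ, List.cons_append]
      have e : mids (Tile.cusps b c :: (List.replicate m (Tile.cusps b c) ++ rest)) =
        (Tile.cusps b c).mid ++ mids (List.replicate m (Tile.cusps b c) ++ rest) := by simp [mids]
      rw [e, (ih A).1]
      simp [Tile.mid]
    · rw [List.replicate_succ, List.cons_append, pass2, (ih A).1, (ih _).2]
      simp [Tile.right, Tile.se, Tile.ne, alt, Tile.ev2, LS]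

theorem pass_blank (rest : List Tile) (A : List Bool) : ∀ m : ℕ,
    pass1 (List.replicate m Tile.blank ++ rest) A = pass1 rest A ∧
    pass2 (List.replicate m Tile.blank ++ rest) A = pass2 rest A ∧
    lefts (List.replicate m Tile.blank ++ rest) = lefts rest ∧
    mids (List.replicate m Tile.blank ++ rest) = mids rest := by
  intro m
  induction m with
  | zero => simp
  | succ m ih =>
    obtain ⟨h1, h2, h3, h4⟩ := ih
    rw [List.replicate_succ, List.cons_append]
    refine ⟨?_, ?_, ?_, ?_⟩
    · simpa [pass1, Tile.ev1, Tile.mid] using h1
    · simpa [pass2, Tile.ev2, Tile.right, Tile.se, Tile.ne] using h2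
    · rw [← h3]; simp [lefts, Tile.left, Tile.sw, Tile.nw]
    · rw [← h4]; simp [mids, Tile.mid]

theorem pass_blank' (A : List Bool) (m : ℕ) :
    pass1 (List.replicate m Tile.blank) A = [] ∧ pass2 (List.replicate m Tile.blank) A = [] ∧
    lefts (List.replicate m Tile.blank) = [] ∧ mids (List.replicate m Tile.blank) = [] := by
  have := pass_blank [] A m
  simpa [pass1, pass2, lefts, mids] using this

theorem diag_end (n : ℕ) : ∀ (j i : ℕ), n ≤ i →
    diagonal (snake n) i j = List.replicate (j + 1) Tile.blank := by
  intro j
  induction j with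
  | zero => intro i hi; simp [diagonal, snake, hi]
  | succ j ih =>
    intro i hi
    rw [diagonal, ih (i + 1) (by omega), List.replicate_succ (n := j + 1)]
    congr 1
    simp [snake, hi]

theorem diag_start (N : ℕ) : ∀ (m i : ℕ),
    diagonal (snake (N + 1)) i (N + m) =
      List.replicate m Tile.blank ++ diagonal (snake (N + 1)) (i + m) N := by
  intro m
  induction m with
  | zero => intro i; simp
  | succ m ih =>
    intro i
    rw [← Nat.add_assoc N m 1, diagonal, ih (i + 1), List.replicate_succ, List.cons_append]
    have e1 : i + 1 + m = i + (m + 1) := by omega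
    rw [e1]
    congr 1
    simp only [snake]
    rw [if_pos (by omega)]

theorem diag_left (n : ℕ) (b : Bool) (x : ℕ) (hb : b = decide (x % 2 = 0)) (hx : x + 1 ≤ n)
    (h5 : 5 ≤ n) (hn : n % 2 = 1) : ∀ (j i : ℕ), i + j = x → 2 ≤ i →
    diagonal (snake n) i j = List.replicate j (Tile.cusps b b) ++
      [if b then Tile.cap true else Tile.lcusp false] := by
  subst hb
  intro j
  induction j with
  | zero =>
    intro i hi h2
    rw [diagonal, List.replicate_zero, List.nil_append]
    congr 1
    grind (splits := 30) [snake]
  | succ j ih =>
    intro i hi h2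
    rw [diagonal, ih (i + 1) (by omega) (by omega), List.replicate_succ, List.cons_append]
    congr 1
    grind (splits := 30) [snake]

theorem diag_right (n : ℕ) (b : Bool) (x : ℕ) (hb : b = decide (x % 2 = 0)) (hx : n ≤ x)
    (h5 : 5 ≤ n) (hn : n % 2 = 1) : ∀ (q i j : ℕ), i + j = x → 2 ≤ i → i + q + 1 = n → j + 3 ≤ n →
    diagonal (snake n) i j = List.replicate q (Tile.cusps b b) ++
      ((if b then Tile.cap true else Tile.rcusp false) :: List.replicate (x - n + 1) Tile.blank) := by
  subst hb
  intro q
  induction q with
  | zero =>
    intro i j hi h2 hq hj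
    obtain ⟨j, rfl⟩ : ∃ j', j = j' + 1 := ⟨j - 1, by omega⟩
    rw [diagonal, diag_end n j (i + 1) (by omega), List.replicate_zero, List.nil_append]
    have e : x - n + 1 = j + 1 := by omega
    rw [e]
    congr 1
    grind (splits := 30) [snake]
  | succ q ih =>
    intro i j hi h2 hq hj
    obtain ⟨j, rfl⟩ : ∃ j', j = j' + 1 := ⟨j - 1, by omega⟩
    rw [diagonal, ih (i + 1) j (by omega) (by omega) (by omega) (by omega),
      List.replicate_succ (n := q), List.cons_append]
    congr 1
    grind (splits := 30) [snake]

end Pool.Agent.T2h44.LM
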