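import Pool.Agent.T2h44.LM.Level

set_option autoImplicit false
set_option linter.unusedSimpArgs false

namespace Pool.Agent.T2h44.LM

/-- the zigzags in the columns `0, ..., X - 1` of the snake -/
def lst (n : ℕ) : ℕ → List Bool
  | 0 => []
  | X + 1 => lst n X ++ List.replicate (kk n X) (decide (X % 2 = 0))

theorem block (b : Bool) (k : ℕ) : FarEq (LB b k ++ RB (!b) k) (zzs false (List.replicate k b)) := by
  cases b
  · exact block_up k
  · exact block_down k

theorem decide_succ (X : ℕ) : decide ((X + 1) % 2 = 0) = !decide (X % 2 = 0) := by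
  rcases Nat.mod_two_eq_zero_or_one X with h | h
  · have : (X + 1) % 2 = 1 := by omega
    simp [h, this]
  · have : (X + 1) % 2 = 0 := by omega
    simp [h, this]

theorem readUpTo_farEq (n : ℕ) (hn : n % 2 = 1) (h5 : 5 ≤ n) : ∀ X : ℕ, X + 3 ≤ 2 * n →
    FarEq (readUpTo (snake n) (X + 1))
      ([⟨[], .lc false, []⟩] ++ (zzs false (lst n X) ++ LB (decide (X % 2 = 0)) (kk n X))) := by
  intro X
  induction X with
  | zero =>
    intro _
    have e : readUpTo (snake n) (0 + 1) = [⟨[], .lc false, []⟩] := by
      simp only [readUpTo, List.nil_append, level_first n h5]; rfl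
    have k0 : kk n 0 = 0 := by simp [kk]
    rw [e, k0]
    exact .refl _
  | succ X ih =>
    intro hX
    have h1 := (ih (by omega)).right (read (diagonal (snake n) 0 (X + 1)) [])
    have h2 := (read_farEq (diagonal (snake n) 0 (X + 1)) []).left
      ([⟨[], .lc false, []⟩] ++ (zzs false (lst n X) ++ LB (decide (X % 2 = 0)) (kk n X)))
    obtain ⟨h3, h4⟩ := level n (X + 1) hn h5 (by omega) hX
    rw [Nat.add_sub_cancel, decide_succ] at h3
    rw [h3, h4] at h2
    have h5 := (block (decide (X % 2 = 0)) (kk n X)).congr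
      ([⟨[], .lc false, []⟩] ++ zzs false (lst n X)) (LB (decide ((X + 1) % 2 = 0)) (kk n (X + 1)))
    refine .trans _ _ _ ?_ (.trans _ _ _ h1 (.trans _ _ _ h2 (.trans _ _ _ ?_
      (.trans _ _ _ h5 ?_))))
    · rw [readUpTo]; exact .refl _
    · simp only [List.append_assoc]; exact .refl _
    · rw [lst, zzs_append]
      simp only [List.append_assoc]; exact .refl _

theorem snake_farEq (n : ℕ) (hn : n % 2 = 1) (h5 : 5 ≤ n) :
    FarEq (frontWord n (snake n)) (nfWord false (lst n (2 * n - 3))) := by
  have h1 := readUpTo_farEq n hn h5 (2 * n - 3) (by omega)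
  have k0 : kk n (2 * n - 3) = 0 := by simp [kk]; omega
  have e0 : ∀ b : Bool, LB b 0 = [] := by intro b; cases b <;> rfl
  rw [k0, e0, List.append_nil] at h1
  have e1 : readUpTo (snake n) (2 * n) = readUpTo (snake n) (2 * n - 3 + 1) ++
      [⟨[], .rc false, []⟩] := by
    obtain ⟨N, rfl⟩ : ∃ N, n = N + 2 := ⟨n - 2, by omega⟩
    have a1 : 2 * (N + 2) = (2 * N + 2 + 1) + 1 := by ring
    have a2 : 2 * (N + 2) - 3 + 1 = 2 * N + 2 := by omega
    have a3 : 2 * (N + 2) - 2 = 2 * N + 2 := by omega
    have h := level_last (N + 2) h5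
    rw [a3] at h
    rw [a2, a1, readUpTo, readUpTo, h]
    have a4 : 2 * N + 2 + 1 = N + 1 + (N + 2) := by ring
    rw [a4, diag_start (N + 1) (N + 2) 0, zero_add, diag_end (N + 1 + 1) (N + 1) (N + 2) le_rfl,
      ← List.replicate_add]
    have hb' : ∀ (m : ℕ) (A : List Bool), read (List.replicate m Tile.blank) A = [] := by
      intro m
      induction m with
      | zero => intro A; rfl
      | succ m ih =>
        intro A
        rw [List.replicate_succ, read, ih]
        rfl
    rw [hb', List.append_nil]
  rw [frontWord, e1]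
  have h2 := h1.right [⟨[], .rc false, []⟩]
  refine .trans _ _ _ h2 ?_
  rw [nfWord]
  simp only [List.append_assoc, List.cons_append, List.nil_append]
  exact .refl _

theorem hasMosaic_snake (n : ℕ) (hn : n % 2 = 1) (h5 : 5 ≤ n) :
    HasMosaic (nf (lst n (2 * n - 3))) n := by
  have h := snake_farEq n hn h5
  have hv : Valid [] (frontWord n (snake n)) [] := (h.valid _ _).2 (nfWord_valid false _)
  exact ⟨snake n, ⟨_, hv⟩, snake_mosaic n hn h5, rfl, mk_eq_of_farEq h hv _⟩

theorem count_step (n X : ℕ) : (lst n (X + 2)).count true =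
    (lst n X).count true + (if X % 2 = 0 then kk n X else kk n (X + 1)) := by
  rw [lst, lst]
  rcases Nat.mod_two_eq_zero_or_one X with h | h
  · have : (X + 1) % 2 = 1 := by omega
    simp [h, this, List.count_replicate]
  · have : (X + 1) % 2 = 0 := by omega
    simp [h, this, List.count_replicate]

theorem count_left (P : ℕ) : ∀ u : ℕ, u ≤ P →
    (lst (2 * P + 3) (2 * (u + 1))).count true = u ^ 2 := by
  intro u
  induction u with
  | zero =>
    intro _
    have e : 2 * (0 + 1) = 0 + 2 := by ring
    rw [e, count_step]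
    simp [lst, kk]
  | succ u ih =>
    intro hu
    have e : 2 * (u + 1 + 1) = 2 * (u + 1) + 2 := by ring
    rw [e, count_step, ih (by omega), if_pos (by omega)]
    have : kk (2 * P + 3) (2 * (u + 1)) = 2 * u + 1 := by simp only [kk]; omega
    rw [this]; ring

theorem count_right (P : ℕ) : ∀ u : ℕ, u ≤ P →
    (lst (2 * P + 3) (2 * (P + 1 + u))).count true + u ^ 2 = P ^ 2 + u * (2 * P + 1) := by
  intro u
  induction u with
  | zero =>
    intro _
    rw [add_zero, count_left P P le_rfl]; ring
  | succ u ih =>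
    intro hu
    have e : 2 * (P + 1 + (u + 1)) = 2 * (P + 1 + u) + 2 := by ring
    have h := ih (by omega)
    rw [e, count_step, if_pos (by omega)]
    have : kk (2 * P + 3) (2 * (P + 1 + u)) + 2 * u = 2 * P := by simp only [kk]; omega
    nlinarith

theorem count_lst (P : ℕ) (n : ℕ) (hn : n = 2 * P + 3) :
    (lst n (2 * n - 3)).count true = P * (2 * P + 1) := by
  subst hn
  have e : 2 * (2 * P + 3) - 3 = 2 * (P + 1 + P) + 1 := by omega
  rw [e, lst, List.count_append, List.count_replicate]
  have h := count_right P P le_rfl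
  have hk : kk (2 * P + 3) (2 * (P + 1 + P)) = 0 := by simp only [kk]; omega
  rw [hk]
  simp only [ite_self, add_zero]
  nlinarith

end Pool.Agent.T2h44.LM
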